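import Pool.Agent.MP_5f72fe_nt.H3.SpecC

/-! Counting and the last step. -/

namespace Pool.Agent.MP_5f72fe_nt.H3

open Filter NumberField Pool.Agent.MP_1246c0_nt.H55 Finset
open scoped MatrixGroups

theorem dsc_eqv {f g : Fm ℤ} (h : Eqv f g) : dsc f = dsc g := by
  obtain ⟨p, q, r, s, p', q', r', s', h1, h2, e⟩ := h
  have := congrArg dsc e
  rwa [dsc_act, dsc_act, h1, h2, one_pow, one_mul, one_mul] at this

theorem eqv_symm {f g : Fm ℤ} (h : Eqv f g) : Eqv g f := by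
  obtain ⟨p, q, r, s, p', q', r', s', h1, h2, e⟩ := h
  exact ⟨p', q', r', s', p, q, r, s, h2, h1, e.symm⟩

theorem eqv_refl (f : Fm ℤ) : Eqv f f := ⟨1, 0, 0, 1, 1, 0, 0, 1, by simp, by simp, rfl⟩

theorem rowCOUNT : OfCOUNT := by
  classical
  intro hQ hV hA hC hL hF
  have key : ∀ n : ℕ, ∃ f g : Fm ℤ, n % 12 = 7 ∧ Squarefree n ∧ 3 ∣ (Rp0 n).card →
      Aniso f ∧ Aniso g ∧ dsc f = -n ∧ dsc g = -n ∧ ¬ Eqv f g := fun n => by
    by_cases h : n % 12 = 7 ∧ Squarefree n ∧ 3 ∣ (Rp0 n).card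
    · obtain ⟨K, _, _, s, τ, q⟩ := hQ.model n h.1 h.2.1
      have h3 := h.2.2
      rw [hV K n s τ q] at h3
      obtain ⟨f, g, hfg⟩ := hA K n s τ q ((by decide : Nat.Coprime 3 4).dvd_of_dvd_mul_left h3)
      exact ⟨f, g, fun _ => hfg⟩
    · exact ⟨0, 0, fun h' => absurd h' h⟩
  choose f g hfg using key
  have h1 := tendsto_natCast_atTop_atTop (R := ℝ).eventually
    (hC 6 _ (1 / 9) (1 / 1500) (by norm_num) hL (by norm_num))
  filter_upwards [h1, hF] with X hX hX'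
  set B := (range (X + 1)).filter fun n => n % 12 = 7 ∧ Squarefree n ∧ 3 ∣ (Rp0 n).card with hB
  have hb : ∀ n ∈ B, _ := fun n hn => hfg n (mem_filter.1 hn).2
  have hm : ∀ F ∈ B.image f ∪ B.image g, ∃ n ∈ B, dsc F = -n ∧ Aniso F ∧ (F = f n ∨ F = g n) := by
    intro F hF
    rcases mem_union.1 hF with h | h <;> obtain ⟨n, hn, rfl⟩ := mem_image.1 h
    · exact ⟨n, hn, (hb n hn).2.2.1, (hb n hn).1, Or.inl rfl⟩
    · exact ⟨n, hn, (hb n hn).2.2.2.1, (hb n hn).2.1, Or.inr rfl⟩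
  have hc : (B.image f ∪ B.image g).card = 2 * B.card := by
    rw [card_union_of_disjoint, card_image_of_injOn, card_image_of_injOn, two_mul]
    · intro n hn m hm e
      have := (hb n hn).2.2.2.1.symm.trans (e ▸ (hb m hm).2.2.2.1)
      omega
    · intro n hn m hm e
      have := (hb n hn).2.2.1.symm.trans (e ▸ (hb m hm).2.2.1)
      omega
    · rw [disjoint_left]
      intro F h1 h2
      obtain ⟨n, hn, rfl⟩ := mem_image.1 h1
      obtain ⟨m, hm, e⟩ := mem_image.1 h2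
      have := (hb n hn).2.2.1.symm.trans (e ▸ (hb m hm).2.2.2.1)
      obtain rfl : n = m := by omega
      exact (hb n hn).2.2.2.2 (e ▸ eqv_refl _)
  have h2 := hX (B.image f ∪ B.image g) (fun F hF => by
    obtain ⟨n, hn, e, ha, -⟩ := hm F hF
    obtain ⟨hn1, hn2, -⟩ := mem_filter.1 hn
    rw [mem_range] at hn1
    refine ⟨ha, by omega, ?_, fun p q r s h => ?_⟩
    · rw [e, neg_neg]
      exact_mod_cast Nat.le_of_lt_succ hn1
    · show dsc _ % 12 = 5
      rw [dsc_act, h, e]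
      omega) fun F hF G hG e => by
    obtain ⟨n, hn, e1, -, h1⟩ := hm F hF
    obtain ⟨m, hm, e2, -, h2⟩ := hm G hG
    have := dsc_eqv e
    obtain rfl : n = m := by omega
    rcases h1 with rfl | rfl <;> rcases h2 with rfl | rfl
    · rfl
    · exact absurd e (hb n hn).2.2.2.2
    · exact absurd (eqv_symm e) (hb n hn).2.2.2.2
    · rfl
  have h3 := card_filter_add_card_filter_not (s := (range (X + 1)).filter
    fun n => n % 12 = 7 ∧ Squarefree n) fun n => 3 ∣ (Rp0 n).card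
  simp only [filter_filter, and_assoc] at h3
  rw [hc] at h2
  rw [← h3, ← hB] at hX'
  push_cast at h2 hX'
  have : (0 : ℝ) ≤ X := Nat.cast_nonneg X
  linarith

theorem adm_NN {k n : ℕ} (hk : 6 ≤ k) (h : n % 12 = 7) (hs : Squarefree n) : Adm (NN k n) k := by
  unfold NN
  split_ifs with h2
  · exact ⟨hk, (Nat.squarefree_mul ((Nat.Prime.coprime_iff_not_dvd Nat.prime_three).2
      (by omega))).2 ⟨Nat.prime_three.prime.squarefree, hs⟩, by omega⟩
  · exact ⟨hk, hs, by omega⟩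

theorem six_le (hS : RowSER) {k : ℕ} (f : CuspForm 𝒮ℒ (2 * k : ℕ)) (h : aF f 1 = 1) : 6 ≤ k := by
  by_contra hk
  have h0 : f = 0 := rank_zero_iff_forall_zero.1
    (CuspForm.rank_eq_zero_of_weight_lt_twelve (by omega)) f
  obtain ⟨A, -, hA⟩ := hS.cfLin (2 * k : ℕ)
  rw [← hA, h0, map_zero] at h
  exact zero_ne_one h

/-- the explicit criterion -/
theorem crit (hS : RowSER) (hK : RowKER) (hC : RowCRIT) (hE : RowEXL) {k : ℕ}
    (f : CuspForm 𝒮ℒ (2 * k : ℕ)) (hf : Hecke k (aF f)) {n : ℕ} (h : n % 12 = 7)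
    (hs : Squarefree n) (h3 : ¬ 3 ∣ (Rp0 n).card) : ∃ L, IsL (NN k n) k (aF f) L ∧ L k ≠ 0 := by
  have hk := six_le hS f hf.1
  obtain ⟨L, hL⟩ := hE _ k f (adm_NN hk h hs)
  exact ⟨L, hL, hC _ k f L (adm_NN hk h hs) hf hL fun c => hK k n c hk h hs h3⟩

theorem rowMAIN : OfMAIN := by
  classical
  intro hS hK hC hE hN k f hf
  refine ⟨1 / 2000, by norm_num, ?_⟩
  have ht : Tendsto (fun x : ℝ => ⌊x / 4⌋₊) atTop atTop :=
    tendsto_nat_floor_atTop.comp (tendsto_id.atTop_div_const (by norm_num))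
  filter_upwards [ht.eventually hN, eventually_ge_atTop 8] with x hx h8
  have h1 : (⌊x / 4⌋₊ : ℝ) ≤ x / 4 := Nat.floor_le (by linarith)
  have h2 : x / 4 < ⌊x / 4⌋₊ + 1 := Nat.lt_floor_add_one _
  set G := (range (⌊x / 4⌋₊ + 1)).filter fun n => n % 12 = 7 ∧ Squarefree n ∧ ¬ 3 ∣ (Rp0 n).card
  let D : ℕ → ℤ := fun n => if k % 2 = 0 then 3 * n else -n
  have hD : ∀ n, (D n).natAbs = NN k n := fun n => by
    simp only [D, NN]
    split_ifs <;> omega
  have hi : Function.Injective D := fun n m e => by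
    simp only [D] at e
    split_ifs at e <;> omega
  have hk := six_le hS f hf.1
  have h3 : (G.card : ℝ) ≤ Set.ncard {D : ℤ | |(D : ℝ)| < x ∧ D ≠ 1 ∧ D % 4 = 1 ∧ Squarefree D ∧
      ∃ L, IsL D.natAbs k (aF f) L ∧ L k ≠ 0} := by
    rw [← card_image_of_injective G hi, ← Set.ncard_coe_finset]
    refine Nat.cast_le.2 (Set.ncard_le_ncard (fun d hd => ?_) ?_)
    · obtain ⟨n, hn, rfl⟩ := mem_image.1 (mem_coe.1 hd)
      obtain ⟨hn1, hn2, hn3, hn4⟩ := mem_filter.1 hn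
      have hn5 : (n : ℝ) ≤ ⌊x / 4⌋₊ := by exact_mod_cast Nat.le_of_lt_succ (mem_range.1 hn1)
      refine ⟨?_, ?_, ?_, ?_, ?_⟩
      · have : |D n| ≤ 3 * n := by
          simp only [D]
          split_ifs <;> rw [abs_le] <;> omega
        have : |(D n : ℝ)| ≤ 3 * n := by exact_mod_cast this
        linarith
      · simp only [D]
        split_ifs <;> omega
      · simp only [D]
        split_ifs <;> omega
      · rw [← Int.squarefree_natAbs, hD]
        exact (adm_NN hk hn2 hn3).2.1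
      · rw [hD]
        exact crit hS hK hC hE f hf hn2 hn3 hn4
    · refine (Set.finite_Icc (-⌈x⌉) ⌈x⌉).subset fun d hd => ?_
      have := abs_lt.1 (hd.1.trans_le (Int.le_ceil x))
      exact ⟨by exact_mod_cast this.1.le, by exact_mod_cast this.2.le⟩
  linarith

end Pool.Agent.MP_5f72fe_nt.H3
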