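import Pool.Agent.MP_5f72fe_nt.H3.SpecA

/-! Statements, part B: the kernel of the Shimura and Shintani lifts. -/

namespace Pool.Agent.MP_5f72fe_nt.H3

open Complex Filter Topology MeasureTheory Set
open scoped Real MatrixGroups UpperHalfPlane NumberTheorySymbols

noncomputable section

/-- `N` is the absolute value of an odd fundamental discriminant (or `1`) of sign `(-1)^k` -/
def Adm (N k : ℕ) : Prop := 6 ≤ k ∧ Squarefree N ∧ N % 4 = 1 + 2 * (k % 2)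

/-- the local genus character -/
def chiP (p : ℕ) (a b c : ℤ) : ℤ :=
  if (p : ℤ) ∣ b ^ 2 - 4 * a * c then (if (p : ℤ) ∣ a then J(c | p) else J(a | p)) else 0

/-- the genus character -/
def chi (N : ℕ) (a b c : ℤ) : ℤ := ∏ p ∈ N.primeFactors, chiP p a b c

/-- the value of the Gauss sum -/
def GS (N : ℕ) : ℂ := (√N : ℝ) * if N % 4 = 1 then 1 else I

def RowGAUSS : Prop :=
  ∀ N : ℕ, Odd N → Squarefree N → ∀ δ : ℤ,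
    ∑ c ∈ Finset.range N, (J(c | N) : ℂ) * E (c * δ / N) = J(δ | N) * GS N

/-- elementary properties of the genus character -/
structure RowCHI : Prop where
  tr : ∀ (N : ℕ) (a b c t : ℤ), Odd N → chi N a (b + 2 * a * t) (a * t ^ 2 + b * t + c) = chi N a b c
  sw : ∀ (N : ℕ) (a b c : ℤ), Odd N → chi N c (-b) a = chi N a b c
  ev : ∀ (N : ℕ) (a b c : ℤ), chi N a (-b) c = chi N a b c
  neg : ∀ (N : ℕ) (a b c : ℤ), Odd N → Squarefree N →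
    chi N (-a) (-b) (-c) = (if N % 4 = 1 then 1 else -1) * chi N a b c
  zero : ∀ (N : ℕ) (b c : ℤ), Odd N → Squarefree N →
    chi N 0 b c = if (N : ℤ) ∣ b then J(c | N) else 0
  per : ∀ (N : ℕ) (a b c x y z : ℤ), chi N (a + N * x) (b + N * y) (c + N * z) = chi N a b c
  abs : ∀ (N : ℕ) (a b c : ℤ), |chi N a b c| ≤ 1
  sup : ∀ (N : ℕ) (a b c : ℤ), Squarefree N → chi N a b c ≠ 0 → (N : ℤ) ∣ b ^ 2 - 4 * a * c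

/-- the Fourier transform in the last variable -/
def XX (N : ℕ) (a δ b : ℤ) : ℂ := ∑ c ∈ Finset.range N, (chi N a b c : ℂ) * E (c * δ / N)

/-- the genus character is its own Fourier transform -/
def RowXFT : Prop :=
  ∀ (N : ℕ) (a δ b : ℤ), Odd N → Squarefree N →
    hat N (XX N a δ) b = GS N / (√N : ℝ) * XX N δ (-a) b

/-- the Fourier coefficients of the theta family -/
def Cf (N : ℕ) (a δ : ℤ) (m μ : ℕ) (τ : ℂ) : ℂ :=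
  if a = 0 then
    (if δ ∣ m ∧ (m / δ) % 2 = μ then GS N * J(δ | N) * E (N * ((m / δ : ℤ) : ℂ) ^ 2 * τ / 4) else 0)
  else
    (∑ b ∈ (Finset.range (2 * a.natAbs)).filter fun b => b % 2 = μ,
      XX N a δ b * E (-(b ^ 2 * δ) / (4 * a * N)) * E (m * b / (2 * a))) *
      (-2 * I * a * (a * τ + δ) / N) ^ (-1 / 2 : ℂ) * E (-(N * m ^ 2) / (4 * a * (a * τ + δ)))

/-- the theta family -/
def Tt (N : ℕ) (a δ : ℤ) (μ : ℕ) (τ : ℂ) (u : ℝ) : ℂ :=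
  E (a * (a * τ + δ) * u ^ 2 / N) * thX N (XX N a δ) μ τ ((a * τ + δ) * u / N)

/-- `Cf` is the Fourier coefficient of `Tt` -/
def RowFAM1 : Prop :=
  ∀ (N : ℕ) (a δ : ℤ) (m μ : ℕ) (τ : ℂ), Odd N → Squarefree N → (a, δ) ≠ (0, 0) → μ < 2 →
    0 < τ.im → ∫ u in (0 : ℝ)..1, Tt N a δ μ τ u * E (-(m * u)) = Cf N a δ m μ τ

/-- covariance -/
structure RowFAM : Prop where
  lawS : ∀ (N : ℕ) (a δ : ℤ) (m μ : ℕ) (τ : ℂ), Odd N → Squarefree N → (a, δ) ≠ (0, 0) → μ < 2 →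
    0 < τ.im → Cf N a δ m μ (-1 / τ) = GS N / (√N : ℝ) * Jh τ *
      ((Cf N δ (-a) m 0 τ + (-1) ^ μ * Cf N δ (-a) m 1 τ) / (√2 : ℝ))
  lawT : ∀ (N : ℕ) (a δ : ℤ) (m μ : ℕ) (τ : ℂ), Odd N → Squarefree N → (a, δ) ≠ (0, 0) → μ < 2 →
    0 < τ.im → Cf N a δ m μ (τ + 1) = E (N * μ / 4) * Cf N a (δ + a) m μ τ
  neg : ∀ (N : ℕ) (a δ : ℤ) (m μ : ℕ) (τ : ℂ), Odd N → Squarefree N → (a, δ) ≠ (0, 0) → μ < 2 →
    0 < τ.im → Cf N (-a) (-δ) m μ τ = (if N % 4 = 1 then 1 else -1) * Cf N a δ m μ τ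

/-- the constant of the Lipschitz formula -/
def cL (s : ℝ) : ℂ := ((2 * π) ^ s / Real.Gamma s : ℝ) * E (-s / 4)

/-- the Lipschitz formula -/
structure RowLIP : Prop where
  sum : ∀ (s α : ℝ) (τ : ℂ), 2 ≤ s → 0 < τ.im →
    HasSum (fun r : ℤ => if 0 < r + α then cL s * ((r + α) ^ (s - 1) : ℝ) * E ((r + α) * τ) else 0)
      (∑' l : ℤ, E (-(α * l)) * (τ + l) ^ (-s : ℂ))
  abs : ∀ (s : ℝ) (τ : ℂ), 2 ≤ s → 0 < τ.im → (Summable fun l : ℤ => ‖τ + l‖ ^ (-s)) ∧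
    ∑' l : ℤ, ‖τ + l‖ ^ (-s) ≤ τ.im ^ (-s) * (2 + 4 * τ.im)
  bound : ∀ s x y : ℝ, 1 ≤ s → 0 < x → 0 < y →
    ‖cL s‖ * x ^ (s - 1) * Real.exp (-(2 * π * x * y)) ≤
      2 * π * (2 / y) ^ (s - 1) * Real.exp (-(π * x * y))
  nat : ∀ k : ℕ, cL (k + 1 : ℕ) = (-2 * π * I) ^ (k + 1) / (k.factorial : ℂ)

/-- a Bessel function -/
def Jb (k : ℕ) (x : ℝ) : ℝ :=
  ∑' i : ℕ, (-(4 * π ^ 2 * x)) ^ i / (i.factorial * Real.Gamma (k + 1 / 2 + i))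

/-- the finite sums -/
def Sa (N a m n : ℕ) : ℂ :=
  ∑ b ∈ Finset.range (2 * a), if (4 * a : ℤ) ∣ b ^ 2 - N * n then
    (chi N a b ((b ^ 2 - N * n) / (4 * a)) : ℂ) * E (m * b / (2 * a)) else 0

/-- one term of the kernel -/
def St (N k a m n : ℕ) : ℂ := Sa N a m n * Jb k (N * n * m ^ 2 / (16 * a ^ 2)) / a ^ k

def SS (N k m n : ℕ) : ℂ := ∑' a : ℕ, St N k (a + 1) m n

def cA (k : ℕ) : ℂ := (-2 * π * I) ^ (2 * k) * (√π : ℝ) * 2 / 4 ^ k / ((k - 1).factorial : ℂ)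

def cB (N k : ℕ) : ℂ := (√(N / 2) * 2 / 4 ^ k * (2 * π) ^ k * √(2 * π) : ℝ) * (-I) ^ k

/-- `n ^ (k - 1/2)` -/
def pw (k n : ℕ) : ℂ := ((n : ℝ) ^ (k - 1 / 2 : ℝ) : ℝ)

/-- the rows: coefficients of forms of weight `k + 1/2` -/
def Brow (N k m n : ℕ) : ℂ :=
  2 * (GS N * (∑ δ ∈ m.divisors, if n = N * (m / δ) ^ 2 then (J(δ | N) : ℂ) / δ ^ k else 0) +
    pw k n * cB N k * SS N k m n)

/-- the columns: coefficients of forms of weight `2 k` -/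
def Acol (N k n m : ℕ) : ℂ :=
  2 * (cL k * GS N / N ^ k *
      (∑ δ ∈ m.divisors, if n = N * (m / δ) ^ 2 then (J(δ | N) : ℂ) * δ ^ (k - 1) else 0) +
    m ^ (2 * k - 1) * cA k * SS N k m n)

def RowMATCH : Prop :=
  ∀ N k m n : ℕ, 1 ≤ N → 1 ≤ k → cA k ≠ 0 ∧ cB N k ≠ 0 ∧
    pw k n * cB N k * Acol N k n m = m ^ (2 * k - 1) * cA k * Brow N k m n

/-- a term of the Poincare series -/
def Ot (N k m μ : ℕ) (v : ℤ × ℤ) (τ : ℂ) : ℂ :=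
  if v = 0 then 0 else Cf N v.1 v.2 m μ τ / (v.1 * τ + v.2) ^ k

/-- the terms with fixed `a > 0` -/
def RowRA : Prop :=
  ∀ (N k m μ : ℕ) (τ : ℂ), Adm N k → 1 ≤ m → μ < 2 → 0 < τ.im → ∃ C : ℝ, ∀ a : ℕ, 1 ≤ a →
    (Summable fun δ : ℤ => ‖Ot N k m μ (a, δ) τ‖) ∧ ∑' δ : ℤ, ‖Ot N k m μ (a, δ) τ‖ ≤ C / a ^ 2 ∧
    (Summable fun n : ℕ => ‖pw k n * cB N k * St N k a m n * E (n * τ / 4)‖) ∧
    ∑' n : ℕ, ‖pw k n * cB N k * St N k a m n * E (n * τ / 4)‖ ≤ C / a ^ 2 ∧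
    ∑' δ : ℤ, Ot N k m μ (a, δ) τ = ser 4 (par μ fun n => pw k n * cB N k * St N k a m n) τ

/-- the rows are cusp forms -/
def RowROW : Prop :=
  ∀ N k m : ℕ, Adm N k → 1 ≤ m → VL k (Brow N k m) ∧ Brow N k m 0 = 0 ∧
    ∀ μ < 2, ∀ τ : ℂ, 0 < τ.im → (Summable fun v => ‖Ot N k m μ v τ‖) ∧
      ∑' v, Ot N k m μ v τ = ser 4 (par μ (Brow N k m)) τ

/-- a term of the sum over quadratic forms -/
def Qt (N k n : ℕ) (z : ℂ) (q : ℤ × ℤ × ℤ) : ℂ :=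
  if q.2.1 ^ 2 - 4 * q.1 * q.2.2 = N * n then
    (chi N q.1 q.2.1 q.2.2 : ℂ) / (q.1 * z ^ 2 + q.2.1 * z + q.2.2) ^ k else 0

def fq (N k n : ℕ) (z : ℂ) : ℂ := ∑' q, Qt N k n z q

/-- convergence and modularity -/
def RowCA : Prop :=
  ∀ N k n : ℕ, Adm N k → 1 ≤ n → (∀ z : ℂ, 0 < z.im → Summable fun q => ‖Qt N k n z q‖) ∧
    DifferentiableOn ℂ (fq N k n) {z | 0 < z.im} ∧
    ∀ z : ℂ, 0 < z.im → fq N k n (z + 1) = fq N k n z ∧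
      fq N k n (-1 / z) = z ^ (2 * k) * fq N k n z

/-- the terms with fixed `a > 0` -/
def RowCB : Prop :=
  ∀ N k n : ℕ, Adm N k → 1 ≤ n → ∃ Y : ℝ, 0 < Y ∧ ∀ z : ℂ, Y < z.im → ∃ C : ℝ, ∀ a : ℕ, 1 ≤ a →
    (Summable fun m : ℕ => ‖(m : ℂ) ^ (2 * k - 1) * cA k * St N k a m n * E (m * z)‖) ∧
    ∑' m : ℕ, ‖(m : ℂ) ^ (2 * k - 1) * cA k * St N k a m n * E (m * z)‖ ≤ C / a ^ 2 ∧
    ∑' p : ℤ × ℤ, Qt N k n z (a, p) = ∑' m : ℕ, (m : ℂ) ^ (2 * k - 1) * cA k * St N k a m n * E (m * z)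

/-- the seed of the forms of square discriminant -/
def phi (N k t : ℕ) (z : ℂ) : ℂ := ∑' c : ℤ, (J(c | N) : ℂ) / (N * t * z + c) ^ k

/-- a majorant -/
def maj (N k t : ℕ) (z : ℂ) : ℝ := ∑' c : ℤ, 1 / ‖(N * t * z + c : ℂ)‖ ^ k

def RowPHI : Prop :=
  ∀ N k t : ℕ, Adm N k → 1 ≤ t → ContinuousOn (phi N k t) {z | 0 < z.im} ∧ ∀ z : ℂ, 0 < z.im →
    (Summable fun c : ℤ => 1 / ‖(N * t * z + c : ℂ)‖ ^ k) ∧ ‖phi N k t z‖ ≤ maj N k t z ∧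
    (Summable fun j : ℕ => ‖(j : ℂ) ^ (k - 1) * E (j * t * z)‖) ∧
    phi N k t z = cL k * GS N / N ^ k * ∑' j : ℕ, (J(j | N) : ℂ) * j ^ (k - 1) * E (j * t * z)

/-- the columns are cusp forms -/
def RowCOL : Prop :=
  ∀ N k n : ℕ, Adm N k → 1 ≤ n → ∃ F : CuspForm 𝒮ℒ (2 * k : ℕ), (∀ z : ℍ, F z = fq N k n z) ∧
    ∀ m : ℕ, 1 ≤ m → aF F m = Acol N k n m

/-- a measure for unfolding -/
def UnfP (ν : Measure ℂ) : Prop :=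
  IsFiniteMeasure ν ∧ (∀ᵐ τ ∂ν, 0 < τ.im) ∧
  (∀ F : ℂ → ℂ, DifferentiableOn ℂ F {τ | 0 < τ.im} → (∀ᵐ τ ∂ν, F τ = 0) →
    ∀ τ : ℂ, 0 < τ.im → F τ = 0) ∧
  ∀ h : ℤ × ℤ → ℂ → ℂ, (∀ τ : ℂ, 0 < τ.im → h 0 τ = 0) →
    (∀ (a δ : ℤ) (τ : ℂ), 0 < τ.im → h (a, δ) (-1 / τ) = h (δ, -a) τ) →
    (∀ (a δ : ℤ) (τ : ℂ), 0 < τ.im → h (a, δ) (τ + 1) = h (a, δ + a) τ) →
    (∀ e : ℕ, ContinuousOn (h (0, e + 1)) {τ | 0 < τ.im}) →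
    (∑' e : ℕ, ∫⁻ y in Ioi (0 : ℝ), ∫⁻ x in Ioc (0 : ℝ) 1,
      ENNReal.ofReal (‖h (0, e + 1) (x + y * I)‖ / y ^ 2)) ≠ ⊤ →
    Integrable (fun τ => ∑' v, h v τ) ν ∧ ∫ τ, ∑' v, h v τ ∂ν =
      ∑' e : ℕ, ∫ y in Ioi (0 : ℝ), (∫ x in (0 : ℝ)..1, h (0, e + 1) (x + y * I)) / (y : ℂ) ^ 2

def RowUNF : Prop := ∃ ν, UnfP ν

/-- the pairing in weight `k + 1/2` -/
def pv (k : ℕ) (h c : ℕ → ℂ) (τ : ℂ) : ℂ :=
  (ser 4 (par 0 h) τ * ser 4 (par 0 c) (-(starRingEnd ℂ) τ) +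
    ser 4 (par 1 h) τ * ser 4 (par 1 c) (-(starRingEnd ℂ) τ)) * (τ.im ^ (k + 1 / 2 : ℝ) : ℝ)

/-- the coefficients of the Shimura lift -/
def shim (N k : ℕ) (c : ℕ → ℂ) (m : ℕ) : ℂ :=
  ∑ δ ∈ m.divisors, (J(δ | N) : ℂ) * δ ^ (k - 1) * c (N * (m / δ) ^ 2)

/-- cusp forms of the plus space are bounded -/
def RowVB : Prop :=
  ∀ (k : ℕ) (c : ℕ → ℂ), VL k c → c 0 = 0 → ∃ C : ℝ, ∀ μ < 2, ∀ τ : ℂ, 0 < τ.im →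
    ‖ser 4 (par μ c) τ‖ * τ.im ^ ((k + 1 / 2 : ℝ) / 2) ≤ C

/-- a form with no odd part is zero -/
def RowODD : Prop := ∀ (k : ℕ) (c : ℕ → ℂ), VL k c → par 1 c = 0 → c = 0

def RowUV : Prop :=
  ∀ (ν : Measure ℂ) (N k : ℕ), UnfP ν → Adm N k → ∃ C : ℂ, C ≠ 0 ∧ ∀ c : ℕ → ℂ, VL k c → c 0 = 0 →
    ∀ m : ℕ, 1 ≤ m → Integrable (pv k (Brow N k m) c) ν ∧
      (m : ℂ) ^ (2 * k - 1) * ∫ τ, pv k (Brow N k m) c τ ∂ν = C * shim N k c m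

/-- the Shimura lift is a combination of columns -/
def RowSHIM : Prop :=
  ∀ (N k : ℕ) (c : ℕ → ℂ), Adm N k → VL k c → c 0 = 0 → ∃ (S : Finset ℕ) (x : ℕ → ℂ),
    (∀ n ∈ S, 1 ≤ n) ∧ ∀ m : ℕ, 1 ≤ m → shim N k c m = ∑ n ∈ S, x n * Acol N k n m

/-- the Shintani lift of a linear form -/
def RowDUAL : Prop :=
  ∀ (N k : ℕ) (l : CuspForm 𝒮ℒ (2 * k : ℕ) →ₗ[ℂ] ℂ) (F : ℕ → CuspForm 𝒮ℒ (2 * k : ℕ)), Adm N k →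
    (∀ n : ℕ, 1 ≤ n → ∀ m : ℕ, 1 ≤ m → aF (F n) m = Acol N k n m) → VL k fun n => pw k n * l (F n)

/-- the function on `ℂ` of a cusp form -/
def fC (f : ℍ → ℂ) : ℂ → ℂ := ser 1 (aF f)

def Im (N k t : ℕ) (f : ℍ → ℂ) (y : ℝ) : ℂ :=
  ∫ x in (0 : ℝ)..1, phi N k t (x + y * I) * (starRingEnd ℂ) (fC f (x + y * I))

def Lam (N k t : ℕ) (f : ℍ → ℂ) : ℂ := ∫ y in Ioi (0 : ℝ), (y : ℂ) ^ (2 * k - 2) * Im N k t f y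

/-- decay at the cusps -/
def RowDEC : Prop :=
  ∀ (k : ℕ) (f : CuspForm 𝒮ℒ (2 * k : ℕ)) (s : ℝ), 0 ≤ s → ∃ C : ℝ, ∀ (p q : ℤ) (z : ℂ), 0 < z.im →
    (p, q) ≠ (0, 0) → ‖fC f z‖ * z.im ^ k ≤ C * (‖q * z + p‖ ^ 2 / z.im) ^ s

def RowBND : Prop :=
  ∀ (N k t : ℕ) (f : CuspForm 𝒮ℒ (2 * k : ℕ)), Adm N k → 1 ≤ t → ∃ C : ℝ, 0 ≤ C ∧ ∀ y : ℝ, 0 < y →
    ∫⁻ x in Ioc (0 : ℝ) 1, ENNReal.ofReal (maj N k t (x + y * I) * ‖fC f (x + y * I)‖) ≤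
      ENNReal.ofReal (C * if y ≤ 1 then y ^ (5 / 4 - 2 * k : ℝ) else Real.exp (-y))

/-- the integrand of the Petersson product -/
def ps (k : ℕ) (F : ℂ → ℂ) (f : ℍ → ℂ) (τ : ℂ) : ℂ :=
  F τ * (starRingEnd ℂ) (fC f τ) * (τ.im : ℂ) ^ (2 * k)

def RowUS : Prop :=
  ∀ (ν : Measure ℂ) (N k t : ℕ) (f : CuspForm 𝒮ℒ (2 * k : ℕ)), UnfP ν → Adm N k → 1 ≤ t →
    2 * ∫ τ, ps k (fq N k (N * t ^ 2)) f τ ∂ν = Lam N k t f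

/-- the Petersson product -/
def RowPET : Prop :=
  ∀ (ν : Measure ℂ) (k : ℕ) (f : CuspForm 𝒮ℒ (2 * k : ℕ)), UnfP ν →
    ∃ l : CuspForm 𝒮ℒ (2 * k : ℕ) →ₗ[ℂ] ℂ, (∀ F, l F = ∫ τ, ps k (fC F) f τ ∂ν) ∧ (l f = 0 → f = 0)

/-- the relations of a normalised eigenform -/
def Hecke (k : ℕ) (a : ℕ → ℂ) : Prop :=
  a 1 = 1 ∧ ∀ m n : ℕ, 1 ≤ m → 1 ≤ n →
    a m * a n = ∑ d ∈ (Nat.gcd m n).divisors, (d : ℂ) ^ (2 * k - 1) * a (m * n / d ^ 2)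

/-- `L` is the entire continuation of the twisted series -/
def IsL (N k : ℕ) (a : ℕ → ℂ) (L : ℂ → ℂ) : Prop :=
  Differentiable ℂ L ∧ ∀ s : ℂ, k + 1 < s.re → L s = LSeries (fun n => a n * J(n | N)) s

def RowMEL : Prop :=
  ∀ (N k : ℕ) (f : CuspForm 𝒮ℒ (2 * k : ℕ)) (L : ℂ → ℂ), Adm N k → Hecke k (aF f) →
    IsL N k (aF f) L → L k = 0 → ∀ m : ℕ, 1 ≤ m →
    ∑ δ ∈ m.divisors, (J(δ | N) : ℂ) * δ ^ (k - 1) * ((m / δ : ℕ) : ℂ) ^ (2 * k - 1) *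
      Lam N k (m / δ) f = 0

def RowEXL : Prop :=
  ∀ (N k : ℕ) (f : CuspForm 𝒮ℒ (2 * k : ℕ)), Adm N k → ∃ L, IsL N k (aF f) L

/-- the criterion -/
def RowCRIT : Prop :=
  ∀ (N k : ℕ) (f : CuspForm 𝒮ℒ (2 * k : ℕ)) (L : ℂ → ℂ), Adm N k → Hecke k (aF f) →
    IsL N k (aF f) L →
    (∀ c : ℕ → ℂ, VL k c → c 0 = 0 → (∀ m : ℕ, 1 ≤ m → c (N * m ^ 2) = 0) → c = 0) → L k ≠ 0

end

end Pool.Agent.MP_5f72fe_nt.H3
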