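import Pool.Agent.MP_5f72fe_nt.H3.SpecA

/-! The socle theorem: charts and expansions. -/

namespace Pool.Agent.MP_5f72fe_nt.H3

/-- the charts -/
def ch (φ : V → ZMod 3) (r : ℤ) : ℤ × ℤ → ZMod 3 := fun w => φ (r + 3 * w.1, 1, 3 * w.2)

/-- the degree is less than `m` -/
def Dg (m : ℕ) (φ : V → ZMod 3) : Prop := Dlt m (ch φ 0) ∧ Dlt m (ch φ 1)

/-- the right side of the Taylor formula -/
def tay (t₁ t₂ L₁₁ L₁₂ L₂₁ L₂₂ : ℤ) (ψ : ℤ × ℤ → ZMod 3) (i j : ℕ) : ZMod 3 :=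
  cof i j ψ - t₁ * cof (i + 1) j ψ - t₂ * cof i (j + 1) ψ - t₁ ^ 2 * cof (i + 2) j ψ +
    t₁ * t₂ * cof (i + 1) (j + 1) ψ - t₂ ^ 2 * cof i (j + 2) ψ +
    i * L₁₁ * cof (i + 2) j ψ + j * L₁₂ * cof (i + 3) (j - 1) ψ +
    i * L₂₁ * cof (i - 1) (j + 3) ψ + j * L₂₂ * cof i (j + 2) ψ

theorem iter_add {A : Type} [AddCommGroup A] (D : A → A) (h : ∀ x y, D (x + y) = D x + D y)
    (n : ℕ) (x y : A) : D^[n] (x + y) = D^[n] x + D^[n] y := by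
  induction n generalizing x y with
  | zero => rfl
  | succ n ih => simp only [Function.iterate_succ_apply, h, ih]

theorem cof_add (i j : ℕ) (ψ χ : ℤ × ℤ → ZMod 3) : cof i j (ψ + χ) = cof i j ψ + cof i j χ := by
  have h1 : ∀ x y : ℤ × ℤ → ZMod 3, dc1 (x + y) = dc1 x + dc1 y := fun x y => by
    funext w
    simp only [dc1, Pi.add_apply]
    ring
  have h2 : ∀ x y : ℤ × ℤ → ZMod 3, dc2 (x + y) = dc2 x + dc2 y := fun x y => by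
    funext w
    simp only [dc2, Pi.add_apply]
    ring
  simp only [cof, iter_add _ h1, iter_add _ h2, Pi.add_apply]

theorem cof_zero (i j : ℕ) : cof i j 0 = 0 := by
  have := cof_add i j 0 0
  rw [add_zero] at this
  linear_combination -this

theorem Dlt.add {m : ℕ} {ψ χ : ℤ × ℤ → ZMod 3} (h : Dlt m ψ) (h' : Dlt m χ) : Dlt m (ψ + χ) := by
  have h1 : ∀ x y : ℤ × ℤ → ZMod 3, df1 (x + y) = df1 x + df1 y := fun x y => by
    funext w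
    simp only [df1, Pi.add_apply]
    ring
  have h2 : ∀ x y : ℤ × ℤ → ZMod 3, df2 (x + y) = df2 x + df2 y := fun x y => by
    funext w
    simp only [df2, Pi.add_apply]
    ring
  intro i j hij
  rw [iter_add _ h2, iter_add _ h1, h i j hij, h' i j hij, add_zero]

theorem Dlt.const {ψ : ℤ × ℤ → ZMod 3} (h : Dlt 1 ψ) (w : ℤ × ℤ) : ψ w = cof 0 0 ψ := by
  have h1 : ∀ a b : ℤ, ψ (a + 1, b) = ψ (a, b) := fun a b => by
    have := congrFun (h 1 0 le_rfl) (a, b)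
    simpa [df1, sub_eq_zero] using this
  have h2 : ∀ a b : ℤ, ψ (a, b + 1) = ψ (a, b) := fun a b => by
    have := congrFun (h 0 1 le_rfl) (a, b)
    simpa [df2, sub_eq_zero] using this
  obtain ⟨a, b⟩ := w
  have e1 : ψ (a, b) = ψ (0, b) := by
    induction a using Int.induction_on with
    | zero => rfl
    | succ a ih => rw [h1, ih]
    | pred a ih => rw [← h1, sub_add_cancel, ih]
  have e2 : ψ (0, b) = ψ (0, 0) := by
    clear e1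
    induction b using Int.induction_on with
    | zero => rfl
    | succ b ih => rw [h2, ih]
    | pred b ih => rw [← h2, sub_add_cancel, ih]
  rw [e1, e2]
  rfl

variable {φ : V → ZMod 3}

theorem InC.rot' (h : InC φ) (v : V) : φ (sg' v) = φ v := by
  have e : sg (sg v) = (-2 : ℤ) • sg' v := by
    obtain ⟨a, y, b⟩ := v
    simp only [sg, sg', Prod.smul_mk, smul_eq_mul, Prod.mk.injEq]
    refine ⟨trivial, by ring, by ring⟩
  rw [← h.hom (-2) _ (by decide), ← e, h.rot, h.rot]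

theorem InC.e0 (_ : InC φ) {a y b a' y' b' : ℤ} (h1 : a = a') (h2 : y = y') (h3 : b = b') :
    φ (a, y, b) = φ (a', y', b') := by rw [h1, h2, h3]

theorem InC.eA (h : InC φ) {a y b a' y' b' : ℤ} (h1 : a = -a') (h2 : y = y') (h3 : b = b') :
    φ (a, y, b) = φ (a', y', b') := by rw [h1, h2, h3, h.sgnA]

theorem InC.eB (h : InC φ) {a y b a' y' b' : ℤ} (h1 : a = a') (h2 : y = y') (h3 : b = -b') :
    φ (a, y, b) = φ (a', y', b') := by rw [h1, h2, h3, h.sgnB]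

theorem InC.eAB (h : InC φ) {a y b a' y' b' : ℤ} (h1 : a = -a') (h2 : y = y') (h3 : b = -b') :
    φ (a, y, b) = φ (a', y', b') := by rw [h1, h2, h3, h.sgnA, h.sgnB]

theorem InC.per' (h : InC φ) (m : ℕ) :
    ∃ N : ℕ, m < N ∧ ∀ v w : V, φ (v + (3 ^ N : ℤ) • w) = φ v := by
  obtain ⟨N, hN⟩ := h.per
  refine ⟨N + (m + 1), by omega, fun v w => ?_⟩
  rw [pow_add, mul_smul, hN]

theorem inv3 (N : ℕ) (hN : 0 < N) (y : ℤ) (hy : ¬ 3 ∣ y) :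
    ∃ l x : ℤ, ¬ 3 ∣ l ∧ l * y = 1 + 3 ^ N * x := by
  obtain ⟨l, x, h⟩ : IsCoprime y (3 ^ N) :=
    ((Int.prime_three.coprime_iff_not_dvd.2 hy).symm).pow_right
  refine ⟨l, -x, fun hl => ?_, by linear_combination h⟩
  have : (3 : ℤ) ∣ 1 := by
    rw [← h]
    exact (hl.mul_right _).add ((dvd_pow_self 3 hN.ne').mul_left _)
  omega

theorem tri (b y : ℤ) (hy : ¬ 3 ∣ y) : 3 ∣ b ∨ 3 ∣ b - y ∨ 3 ∣ b + y := by
  rcases (by omega : b % 3 = 0 ∨ b % 3 = 1 ∨ b % 3 = 2) with h | h | h <;>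
    rcases (by omega : y % 3 = 1 ∨ y % 3 = 2) with h' | h' <;> omega

theorem InC.cover (h : InC φ) {c : ZMod 3} (h0 : ∀ w, ch φ 0 w = c) (h1 : ∀ w, ch φ 1 w = c) :
    φ = c • one3 := by
  have key : ∀ a y b : ℤ, ¬ 3 ∣ y → 3 ∣ b → φ (a, y, b) = c := by
    rintro a y _ hy ⟨b, rfl⟩
    obtain ⟨N, hN0, hN⟩ := h.per' 0
    obtain ⟨l, x, hl, e⟩ := inv3 N hN0 y hy
    have e1 : φ (a, y, 3 * b) = φ (l * a, 1, 3 * (l * b)) := by
      rw [← h.hom l _ hl, ← hN (l * a, 1, 3 * (l * b)) (0, x, 0)]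
      simp only [Prod.smul_mk, smul_eq_mul, Prod.mk_add_mk]
      exact h.e0 (by ring) e (by ring)
    rw [e1]
    generalize l * a = a'
    have : ∃ t, a' = 0 + 3 * t ∨ a' = 1 + 3 * t ∨ a' = -(1 + 3 * t) := by
      rcases (by omega : a' % 3 = 0 ∨ a' % 3 = 1 ∨ a' % 3 = 2) with h | h | h
      · exact ⟨a' / 3, by omega⟩
      · exact ⟨a' / 3, by omega⟩
      · exact ⟨-(a' / 3) - 1, by omega⟩
    obtain ⟨t, rfl | rfl | rfl⟩ := this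
    · exact h0 (t, l * b)
    · exact h1 (t, l * b)
    · rw [h.sgnA]
      exact h1 (t, l * b)
  funext ⟨a, y, b⟩
  by_cases hy : 3 ∣ y
  · simp [one3, hy, h.zero (a, y, b) hy]
  · simp only [one3, Pi.smul_apply, hy, if_false, smul_eq_mul, mul_one]
    rcases tri b y hy with hb | hb | hb
    · exact key a y b hy hb
    · rw [← h.rot]
      exact key _ _ _ (by simp only; omega) hb
    · rw [← h.rot']
      exact key _ _ _ (by simp only; omega) hb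

theorem InC.dg (hD : RowDEG) (h : InC φ) : ∃ m, Dg m φ := by
  obtain ⟨N, hN⟩ := h.per
  have : ∀ r, ∃ m, Dlt m (ch φ r) := fun r => hD.per N _ fun v w => by
    simp only [ch]
    rw [← hN (r + 3 * v.1, 1, 3 * v.2) (3 * w.1, 0, 3 * w.2)]
    simp only [Prod.smul_mk, smul_eq_mul, Prod.mk_add_mk, Prod.fst_add, Prod.snd_add,
      Prod.smul_fst, Prod.smul_snd]
    exact h.e0 (by ring) (by ring) (by ring)
  obtain ⟨m, hm⟩ := this 0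
  obtain ⟨m', hm'⟩ := this 1
  exact ⟨m + m', fun i j e => hm i j (by omega), fun i j e => hm' i j (by omega)⟩

theorem InC.key (hT : RowTAY) (h : InC φ) {m : ℕ} (r : ℤ) (hr : Dlt (m + 1) (ch φ r))
    (u l₁ l₂ n₁ n₂ n₁₁ n₁₂ n₂₁ n₂₂ t₁ t₂ L₁₁ L₁₂ L₂₁ L₂₂ : ℤ) (hu : ¬ 3 ∣ u)
    (h1 : 3 ∣ n₁ - u * t₁) (h2 : 3 ∣ n₂ - u * t₂) (h11 : 9 ∣ n₁₁ - u * (1 + 3 * L₁₁))
    (h12 : 9 ∣ n₁₂ - u * (3 * L₁₂)) (h21 : 9 ∣ n₂₁ - u * (3 * L₂₁))
    (h22 : 9 ∣ n₂₂ - u * (1 + 3 * L₂₂)) (ψ : ℤ × ℤ → ZMod 3)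
    (hψ : ∀ w : ℤ × ℤ, ψ w = φ (r * (u + 9 * (l₁ * w.1 + l₂ * w.2)) +
      3 * (n₁ + n₁₁ * w.1 + n₁₂ * w.2), u + 9 * (l₁ * w.1 + l₂ * w.2),
      3 * (n₂ + n₂₁ * w.1 + n₂₂ * w.2))) :
    Dlt (m + 1) ψ ∧ ∀ i j : ℕ, m ≤ i + j + 2 →
      cof i j ψ = tay t₁ t₂ L₁₁ L₁₂ L₂₁ L₂₂ (ch φ r) i j := by
  obtain ⟨N, hN0, hN⟩ := h.per' m
  have hy : ∀ w : ℤ × ℤ, ¬ 3 ∣ u + 9 * (l₁ * w.1 + l₂ * w.2) := fun w => by omega
  choose l x hl e using fun w => inv3 N (by omega) _ (hy w)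
  have e1 : ψ = ch φ r ∘ fun w => (l w * (n₁ + n₁₁ * w.1 + n₁₂ * w.2),
      l w * (n₂ + n₂₁ * w.1 + n₂₂ * w.2)) := by
    funext w
    simp only [ch, Function.comp_apply]
    rw [hψ, ← h.hom (l w) _ (hl w), ← hN (r + 3 * (l w * _), 1, _) (r * x w, x w, 0)]
    simp only [Prod.smul_mk, smul_eq_mul, Prod.mk_add_mk]
    exact h.e0 (by linear_combination r * e w) (e w) (by ring)
  rw [e1]
  refine hT m N _ _ u l₁ l₂ n₁ n₂ n₁₁ n₁₂ n₂₁ n₂₂ t₁ t₂ L₁₁ L₁₂ L₂₁ L₂₂ hr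
    (hN0.trans (Nat.lt_pow_self (by norm_num))) hu h1 h2 h11 h12 h21 h22 (fun w => ?_) fun w => ?_
  · exact ⟨x w * (n₁ + n₁₁ * w.1 + n₁₂ * w.2), by
      linear_combination (n₁ + n₁₁ * w.1 + n₁₂ * w.2) * e w⟩
  · exact ⟨x w * (n₂ + n₂₁ * w.1 + n₂₂ * w.2), by
      linear_combination (n₂ + n₂₁ * w.1 + n₂₂ * w.2) * e w⟩

theorem tay_top (hD : RowDEG) {m i j : ℕ} {ψ : ℤ × ℤ → ZMod 3} (h : Dlt (m + 1) ψ)
    (e : i + j = m) (t₁ t₂ L₁₁ L₁₂ L₂₁ L₂₂ : ℤ) :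
    tay t₁ t₂ L₁₁ L₁₂ L₂₁ L₂₂ ψ i j = cof i j ψ := by
  have z := fun i j => hD.zero (m + 1) i j ψ h
  simp only [tay]
  rw [z (i + 1) j (by omega), z i (j + 1) (by omega), z (i + 2) j (by omega),
    z (i + 1) (j + 1) (by omega), z i (j + 2) (by omega), z (i + 3) (j - 1) (by omega),
    z (i - 1) (j + 3) (by omega)]
  ring

/-- affine maps close to the charts -/
def Good (G : ℤ × ℤ → V) : Prop :=
  ∃ a₀ a₁ a₂ u l₁ l₂ b₀ b₁ b₂ : ℤ, 3 ∣ u - 1 ∧ 3 ∣ a₁ - 1 ∧ 3 ∣ a₂ ∧ 3 ∣ b₁ ∧ 3 ∣ b₂ - 1 ∧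
    ∀ w, G w = (a₀ + 3 * (a₁ * w.1 + a₂ * w.2), u + 9 * (l₁ * w.1 + l₂ * w.2),
      b₀ + 3 * (b₁ * w.1 + b₂ * w.2))

theorem good_ch (r : ℤ) : Good fun w => (r + 3 * w.1, 1, 3 * w.2) :=
  ⟨r, 1, 0, 1, 0, 0, 0, 0, 1, by simp, by simp, by simp, by simp, by simp, fun w => by simp⟩

theorem Good.sg {G : ℤ × ℤ → V} (h : Good G) : Good fun w => sg (G w) := by
  obtain ⟨a₀, a₁, a₂, u, l₁, l₂, b₀, b₁, b₂, h1, h2, h3, h4, h5, e⟩ := h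
  refine ⟨-2 * a₀, -2 * a₁, -2 * a₂, u + 3 * b₀, l₁ + b₁, l₂ + b₂, b₀ - u, b₁ - 3 * l₁,
    b₂ - 3 * l₂, by omega, by omega, by omega, by omega, by omega, fun w => ?_⟩
  simp only [e, H3.sg, Prod.mk.injEq]
  refine ⟨by ring, by ring, by ring⟩

theorem Good.sg' {G : ℤ × ℤ → V} (h : Good G) : Good fun w => sg' (G w) := by
  obtain ⟨a₀, a₁, a₂, u, l₁, l₂, b₀, b₁, b₂, h1, h2, h3, h4, h5, e⟩ := h
  refine ⟨-2 * a₀, -2 * a₁, -2 * a₂, u - 3 * b₀, l₁ - b₁, l₂ - b₂, b₀ + u, b₁ + 3 * l₁,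
    b₂ + 3 * l₂, by omega, by omega, by omega, by omega, by omega, fun w => ?_⟩
  simp only [e, H3.sg', Prod.mk.injEq]
  refine ⟨by ring, by ring, by ring⟩

theorem Good.p7 {G : ℤ × ℤ → V} (h : Good G) (s : ℤ) : Good fun w => p7 s (G w) := by
  obtain ⟨a₀, a₁, a₂, u, l₁, l₂, b₀, b₁, b₂, h1, h2, h3, h4, h5, e⟩ := h
  refine ⟨7 * a₀, 7 * a₁, 7 * a₂, u + 12 * (s * b₀), l₁ + 4 * s * b₁, l₂ + 4 * s * b₂,
    b₀ - 4 * s * u, b₁ - 12 * (s * l₁), b₂ - 12 * (s * l₂), by omega, by omega, by omega, by omega,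
    by omega, fun w => ?_⟩
  simp only [e, H3.p7, Prod.mk.injEq]
  refine ⟨by ring, by ring, by ring⟩

theorem Good.q7 {G : ℤ × ℤ → V} (h : Good G) (s : ℤ) : Good fun w => q7 s (G w) := by
  obtain ⟨a₀, a₁, a₂, u, l₁, l₂, b₀, b₁, b₂, h1, h2, h3, h4, h5, e⟩ := h
  refine ⟨a₀ - 4 * s * u, a₁ - 12 * (s * l₁), a₂ - 12 * (s * l₂), u + 12 * (s * a₀),
    l₁ + 4 * s * a₁, l₂ + 4 * s * a₂, 7 * b₀, 7 * b₁, 7 * b₂, by omega, by omega, by omega,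
    by omega, by omega, fun w => ?_⟩
  simp only [e, H3.q7, Prod.mk.injEq]
  refine ⟨by ring, by ring, by ring⟩

theorem InC.chm (h : InC φ) : ch φ (-1) = fun w => ch φ 1 (-w.1, w.2) := by
  funext w
  exact h.eA (by ring) rfl rfl

/-- the top coefficients are kept -/
theorem InC.top (hD : RowDEG) (hT : RowTAY) (h : InC φ) {m : ℕ} (hm : Dg (m + 1) φ)
    (he : ∀ i j, i + j = m → cof i j (ch φ 1) = cof i j (ch φ 0) ∧
      (-1) ^ i * cof i j (ch φ 1) = cof i j (ch φ 0)) {G : ℤ × ℤ → V} (hG : Good G) :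
    Dlt (m + 1) (fun w => φ (G w)) ∧
      ∀ i j, i + j = m → cof i j (fun w => φ (G w)) = cof i j (ch φ 0) := by
  have key : ∀ G : ℤ × ℤ → V, Good G → 3 ∣ (G (0, 0)).2.2 → Dlt (m + 1) (fun w => φ (G w)) ∧
      ∀ i j, i + j = m → cof i j (fun w => φ (G w)) = cof i j (ch φ 0) := by
    rintro G ⟨a₀, a₁, a₂, u, l₁, l₂, b₀, b₁, b₂, h1, h2, h3, h4, h5, e⟩ hb
    simp only [e, mul_zero, add_zero] at hb
    obtain ⟨b, rfl⟩ := hb
    obtain ⟨r, a, hr, hr', ha⟩ : ∃ r a : ℤ, Dlt (m + 1) (ch φ r) ∧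
        (∀ i j, i + j = m → cof i j (ch φ r) = cof i j (ch φ 0)) ∧ a₀ = r * u + 3 * a := by
      rcases tri a₀ u (by omega) with ⟨a, ha⟩ | ⟨a, ha⟩ | ⟨a, ha⟩
      · exact ⟨0, a, hm.1, fun _ _ _ => rfl, by omega⟩
      · exact ⟨1, a, hm.2, fun i j e => (he i j e).1, by omega⟩
      · refine ⟨-1, a, ?_, fun i j e => ?_, by omega⟩
        · rw [h.chm]
          exact (hD.dneg _ _ hm.2).1
        · rw [h.chm, hD.neg1]
          exact (he i j e).2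
    obtain ⟨x, hx⟩ := h1
    obtain rfl : u = 1 + 3 * x := by omega
    obtain ⟨x1, hx1⟩ := h2
    obtain rfl : a₁ = 1 + 3 * x1 := by omega
    obtain ⟨x2, rfl⟩ := h3
    obtain ⟨y1, rfl⟩ := h4
    obtain ⟨y2, hy2⟩ := h5
    obtain rfl : b₂ = 1 + 3 * y2 := by omega
    have := h.key hT r hr (1 + 3 * x) l₁ l₂ a b (1 + 3 * x1 - 3 * r * l₁) (3 * x2 - 3 * r * l₂)
      (3 * y1) (1 + 3 * y2) a b (x1 - r * l₁ - x) (x2 - r * l₂) y1 (y2 - x) (by omega)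
      ⟨-x * a, by ring⟩ ⟨-x * b, by ring⟩ ⟨-x * (x1 - r * l₁ - x), by ring⟩
      ⟨-x * (x2 - r * l₂), by ring⟩ ⟨-x * y1, by ring⟩ ⟨-x * (y2 - x), by ring⟩
      (fun w => φ (G w)) fun w => by
        rw [e]
        exact h.e0 (by rw [ha]; ring) rfl (by ring)
    exact ⟨this.1, fun i j e => by rw [this.2 i j (by omega), tay_top hD hr e, hr' i j e]⟩
  have hy : 3 ∣ (G (0, 0)).2.1 - 1 := by
    obtain ⟨a₀, a₁, a₂, u, l₁, l₂, b₀, b₁, b₂, h1, -, -, -, -, e⟩ := hG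
    simpa [e] using h1
  rcases tri (G (0, 0)).2.2 (G (0, 0)).2.1 (by omega) with hb | hb | hb
  · exact key G hG hb
  · simpa only [h.rot] using key _ hG.sg hb
  · simpa only [h.rot'] using key _ hG.sg' hb

end Pool.Agent.MP_5f72fe_nt.H3
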