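import Pool.Agent.MP_5f72fe_nt.H3.SpecB

/-! The relations of an eigenform of all `T_p`. -/

namespace Pool.Agent.MP_5f72fe_nt.H3

open Finset

theorem hek_step (w : ℕ) (a : ℕ → ℂ) {p : ℕ} (hp : p.Prime) (m n : ℕ) (hm : 1 ≤ m) (hn : 1 ≤ n) :
    ∑ d ∈ (Nat.gcd m n).divisors, (d : ℂ) ^ w * (a (p * (m * n / d ^ 2)) +
      p ^ w * if p ∣ m * n / d ^ 2 then a (m * n / d ^ 2 / p) else 0) =
    ∑ e ∈ (Nat.gcd (p * m) n).divisors, (e : ℂ) ^ w * a (p * m * n / e ^ 2) +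
      p ^ w * if p ∣ m then
        ∑ d ∈ (Nat.gcd (m / p) n).divisors, (d : ℂ) ^ w * a (m / p * n / d ^ 2) else 0 := by
  have hp0 := hp.pos
  have hg : Nat.gcd m n ≠ 0 := (Nat.gcd_pos_of_pos_left _ hm).ne'
  have hg' : Nat.gcd (p * m) n ≠ 0 := (Nat.gcd_pos_of_pos_right _ hn).ne'
  have e1 : ∑ e ∈ (Nat.gcd (p * m) n).divisors, (e : ℂ) ^ w * a (p * m * n / e ^ 2) =
      ∑ d ∈ (Nat.gcd m n).divisors, (d : ℂ) ^ w * a (p * (m * n / d ^ 2)) +
      ∑ d ∈ (Nat.gcd m n).divisors with ¬ p * d ∣ m ∧ p * d ∣ n,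
        (p : ℂ) ^ w * (d ^ w * a (m * n / d ^ 2 / p)) := by
    rw [← sum_filter_add_sum_filter_not _ (· ∣ m)]
    congr 1
    · refine sum_congr ?_ fun d hd => ?_
      · ext d
        simp only [mem_filter, Nat.mem_divisors, Nat.dvd_gcd_iff, hg, hg', ne_eq, not_false_eq_true,
          and_true]
        exact ⟨fun h => ⟨h.2, h.1.2⟩, fun h => ⟨⟨h.1.mul_left _, h.2⟩, h.1⟩⟩
      · obtain ⟨h1, h2⟩ := Nat.dvd_gcd_iff.1 (Nat.dvd_of_mem_divisors hd)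
        rw [mul_assoc, Nat.mul_div_assoc _ (sq d ▸ mul_dvd_mul h1 h2)]
    · symm
      refine sum_nbij (p * ·) (fun d hd => ?_) (fun x _ y _ h => Nat.eq_of_mul_eq_mul_left hp0 h)
        (fun e he => ?_) fun d hd => ?_
      · simp only [mem_filter, Nat.mem_divisors, Nat.dvd_gcd_iff] at hd ⊢
        exact ⟨⟨⟨Nat.mul_dvd_mul_left _ hd.1.1.1, hd.2.2⟩, hg'⟩, hd.2.1⟩
      · simp only [coe_filter, Nat.mem_divisors, Nat.dvd_gcd_iff, Set.mem_ofPred_eq] at he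
        obtain ⟨d, rfl⟩ : p ∣ e := by
          by_contra h
          exact he.2 (((Nat.Prime.coprime_iff_not_dvd hp).2 h).symm.dvd_of_dvd_mul_left he.1.1.1)
        refine ⟨d, ?_, rfl⟩
        simp only [coe_filter, Nat.mem_divisors, Nat.dvd_gcd_iff, Set.mem_ofPred_eq]
        exact ⟨⟨⟨Nat.dvd_of_mul_dvd_mul_left hp0 he.1.1.1, (Dvd.intro_left _ rfl).trans he.1.1.2⟩,
          hg⟩, he.2, he.1.1.2⟩
      · rw [Nat.div_div_eq_div_mul, show (p * d) ^ 2 = p * (d ^ 2 * p) by ring, mul_assoc p m n,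
          Nat.mul_div_mul_left _ _ hp0]
        push_cast
        ring
  have e2 : (if p ∣ m then
      ∑ d ∈ (Nat.gcd (m / p) n).divisors, (d : ℂ) ^ w * a (m / p * n / d ^ 2) else 0) =
      ∑ d ∈ (Nat.gcd m n).divisors with p * d ∣ m, (d : ℂ) ^ w * a (m * n / d ^ 2 / p) := by
    split_ifs with h
    · obtain ⟨m, rfl⟩ := h
      rw [Nat.mul_div_cancel_left _ hp0]
      refine sum_congr ?_ fun d _ => ?_
      · ext d
        simp only [mem_filter, Nat.mem_divisors, Nat.dvd_gcd_iff, hg, ne_eq, not_false_eq_true,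
          and_true, (Nat.gcd_pos_of_pos_right m hn).ne', Nat.mul_dvd_mul_iff_left hp0]
        exact ⟨fun h => ⟨⟨h.1.mul_left _, h.2⟩, h.1⟩, fun h => ⟨h.2, h.1.2⟩⟩
      · rw [Nat.div_div_eq_div_mul, mul_comm (d ^ 2), mul_assoc p, Nat.mul_div_mul_left _ _ hp0]
    · exact (sum_eq_zero fun d hd => absurd ((Dvd.intro _ rfl).trans (mem_filter.1 hd).2) h).symm
  rw [e1, e2, sum_filter, sum_filter, mul_sum, ← sum_add_distrib, ← sum_add_distrib]
  refine sum_congr rfl fun d hd => ?_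
  obtain ⟨⟨x, rfl⟩, ⟨y, rfl⟩⟩ := Nat.dvd_gcd_iff.1 (Nat.dvd_of_mem_divisors hd)
  have hd0 : 0 < d := Nat.pos_of_mem_divisors hd
  have e3 : d * x * (d * y) / d ^ 2 = x * y := by
    rw [show d * x * (d * y) = d ^ 2 * (x * y) by ring, Nat.mul_div_cancel_left _ (by positivity)]
  simp only [e3, mul_comm p d, Nat.mul_dvd_mul_iff_left hd0, hp.dvd_mul]
  by_cases h1 : p ∣ x <;> by_cases h2 : p ∣ y <;> simp [h1, h2] <;> ring

theorem hek (w : ℕ) (a : ℕ → ℂ) (h : ∀ p : ℕ, p.Prime → ∃ l : ℂ, ∀ n : ℕ, 1 ≤ n →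
    a (p * n) + p ^ w * (if p ∣ n then a (n / p) else 0) = l * a n) (m : ℕ) :
    1 ≤ m → ∀ n : ℕ, 1 ≤ n →
      a m * a n = a 1 * ∑ d ∈ (Nat.gcd m n).divisors, (d : ℂ) ^ w * a (m * n / d ^ 2) := by
  induction m using Nat.strong_induction_on with
  | _ m ih =>
  intro hm n hn
  obtain rfl | h1 := hm.eq_or_lt
  · simp
  obtain ⟨p, hp, m, rfl⟩ := Nat.exists_prime_and_dvd h1.ne'
  have hm0 : 1 ≤ m := Nat.pos_of_mul_pos_left hm
  have hlt : m < p * m := by nlinarith [hp.two_le]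
  obtain ⟨l, hl⟩ := h p hp
  have e := hek_step w a hp m n hm0 hn
  rw [sum_congr rfl fun d hd => by
    obtain ⟨h1, h2⟩ := Nat.dvd_gcd_iff.1 (Nat.dvd_of_mem_divisors hd)
    rw [hl _ (Nat.div_pos (Nat.le_of_dvd (by positivity) (sq d ▸ mul_dvd_mul h1 h2))
      (pow_pos (Nat.pos_of_mem_divisors hd) 2)), mul_left_comm], ← mul_sum] at e
  have e1 := ih m hlt hm0 n hn
  have e2 := hl m hm0
  split_ifs at e e2 with hd
  · have e3 := ih (m / p) ((Nat.div_le_self _ _).trans_lt hlt)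
      (Nat.div_pos (Nat.le_of_dvd hm0 hd) hp.pos) n hn
    linear_combination a n * e2 + l * e1 + a 1 * e - (p : ℂ) ^ w * e3
  · linear_combination a n * e2 + l * e1 + a 1 * e

theorem hek_one (w : ℕ) (a : ℕ → ℂ) (h : ∀ p : ℕ, p.Prime → ∃ l : ℂ, ∀ n : ℕ, 1 ≤ n →
    a (p * n) + p ^ w * (if p ∣ n then a (n / p) else 0) = l * a n) (h1 : a 1 = 0) (m : ℕ)
    (hm : 1 ≤ m) : a m = 0 := by
  simpa [h1] using hek w a h m hm m hm

end Pool.Agent.MP_5f72fe_nt.H3
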