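import Pool.Agent.MP_1246c0_nt.H59.Lat
import Pool.Agent.MP_5f72fe_nt.H1.F9
import Pool.Agent.MP_5f72fe_nt.H1.LIP
import Pool.Agent.MP_5f72fe_nt.H1.ORB
import Pool.Agent.MP_5f72fe_nt.H11.VEN
import Pool.Agent.MP_5f72fe_nt.H11.WDIM
import Pool.Agent.MP_5f72fe_nt.H16.QN
import Pool.Agent.MP_5f72fe_nt.H16.TER1
import Pool.Agent.MP_5f72fe_nt.H18.CLS
import Pool.Agent.MP_5f72fe_nt.H19.US
import Pool.Agent.MP_5f72fe_nt.H20.SER2
import Pool.Agent.MP_5f72fe_nt.H22.LOC6
import Pool.Agent.MP_5f72fe_nt.H22.ROW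
import Pool.Agent.MP_5f72fe_nt.H22.XFT
import Pool.Agent.MP_5f72fe_nt.H25.Kb
import Pool.Agent.MP_5f72fe_nt.H25.Ker
import Pool.Agent.MP_5f72fe_nt.H25.Sur
import Pool.Agent.MP_5f72fe_nt.H26.EI2
import Pool.Agent.MP_5f72fe_nt.H27.VDIM
import Pool.Agent.MP_5f72fe_nt.H28.JH
import Pool.Agent.MP_5f72fe_nt.H28.MATCH
import Pool.Agent.MP_5f72fe_nt.H28.STAB
import Pool.Agent.MP_5f72fe_nt.H3.ALGN
import Pool.Agent.MP_5f72fe_nt.H3.Hek
import Pool.Agent.MP_5f72fe_nt.H3.Main
import Pool.Agent.MP_5f72fe_nt.H3.SOC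
import Pool.Agent.MP_5f72fe_nt.H36.MEL
import Pool.Agent.MP_5f72fe_nt.H4.CB
import Pool.Agent.MP_5f72fe_nt.H40.TER
import Pool.Agent.MP_5f72fe_nt.H41.RA
import Pool.Agent.MP_5f72fe_nt.H45.TAY
import Pool.Agent.MP_5f72fe_nt.H50.NZ
import Pool.Agent.MP_5f72fe_nt.H53.QG
import Pool.Agent.MP_5f72fe_nt.H57.DEC
import Pool.Agent.MP_5f72fe_nt.H57.T3
import Pool.Agent.MP_5f72fe_nt.H58.BND
import Pool.Agent.MP_5f72fe_nt.H59.PHI
import Pool.Agent.MP_5f72fe_nt.H59.UNF
import Pool.Agent.MP_5f72fe_nt.H6.ANK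
import Pool.Agent.MP_5f72fe_nt.H6.REDN
import Pool.Agent.MP_5f72fe_nt.H6.VB
import Pool.Agent.MP_5f72fe_nt.H60.TH
import Pool.Agent.MP_5f72fe_nt.H62.CRIT
import Pool.Agent.MP_5f72fe_nt.H62.FAM1
import Pool.Agent.MP_5f72fe_nt.H62.INT
import Pool.Agent.MP_5f72fe_nt.H63.EXL
import Pool.Agent.MP_5f72fe_nt.H65.DEG
import Pool.Agent.MP_5f72fe_nt.H65.RAT
import Pool.Agent.MP_5f72fe_nt.H68.SHIM
import Pool.Agent.MP_5f72fe_nt.H70.UV
import Pool.Agent.MP_5f72fe_nt.H74.CA
import Pool.Agent.MP_5f72fe_nt.H75.CHI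
import Pool.Agent.MP_5f72fe_nt.H75.CUSPN
import Pool.Agent.MP_5f72fe_nt.H83.V3
import Pool.Agent.MP_5f72fe_nt.H86.COL
import Pool.Agent.MP_5f72fe_nt.H86.PET
import Pool.Agent.MP_5f72fe_nt.H86.WGEN
import Pool.Agent.MP_5f72fe_nt.H88.VOLN
import Pool.Agent.MP_5f72fe_nt.H9.MF3
import Pool.Agent.MP_5f72fe_nt.H95.FAM
import Pool.Agent.MP_5f72fe_nt.H96.BASE
import Pool.Agent.MP_5f72fe_nt.H96.QO
import Pool.Agent.MP_5f72fe_nt.H96.SER1
import Pool.Agent.MP_5f72fe_nt.H97.EI7
import Pool.Agent.MP_5f72fe_nt.H98.GAUSS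
import Pool.Agent.MP_5f72fe_nt.H99.POL

/-! All rows together. -/

namespace Pool.Agent.MP_5f72fe_nt.H3

theorem allJH : RowJH := H28.rowJH

theorem allSER1 : RowSER1 := H96.rowSER1 allJH

theorem allSER2 : RowSER2 := H20.rowSER2 allJH allSER1

theorem allSER : RowSER := ⟨allSER1, allSER2⟩

theorem allINT : RowINT := H62.rowINT

theorem allTH : RowTH := H60.rowTH allJH

theorem allV3 : RowV3 := H83.rowV3 allSER allJH

theorem allF9 : RowF9 := H1.rowF9 allSER allJH

theorem allBASE : RowBASE := H96.rowBASE allSER allJH allTH allINT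

theorem allNZ : RowNZ := H50.rowNZ allSER allJH allINT allBASE

theorem allMF3 : RowMF3 := H9.rowMF3 allSER allJH allINT allBASE allNZ

theorem allCLS : RowCLS := H18.rowCLS allSER allJH allINT allBASE allNZ allMF3 allF9

theorem allRAT : RowRAT := H65.rowRAT allINT

theorem allSTAB : RowSTAB := H28.rowSTAB

theorem allEI2 : RowEI2 := H26.rowEI2

theorem allEI7 : RowEI7 := H97.rowEI7

theorem allDEG : RowDEG := H65.rowDEG

theorem allTAY : RowTAY := H45.rowTAY allDEG

theorem allSOC : RowSOC := rowSOC allDEG allTAY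

theorem allPOL : RowPOL := H99.rowPOL

theorem allTER1 : RowTER1 := H16.rowTER1 allSER allJH allTH

theorem allTER : RowTER := H40.rowTER allSER allPOL allTER1

theorem allWDIM : RowWDIM := H11.rowWDIM allSER allJH allINT allBASE allNZ

theorem allWGEN : RowWGEN := H86.rowWGEN allSER allJH allINT allBASE allNZ

theorem allSUR : RowSUR := H25.rowSUR allRAT allSTAB allEI2 allEI7 allSOC allPOL allTER allWDIM

theorem allVDIM : RowVDIM := H27.rowVDIM allSER allJH allINT allBASE allNZ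

theorem allGAUSS : RowGAUSS := H98.rowGAUSS allSER allJH allTH

theorem allCHI : RowCHI := H75.rowCHI

theorem allXFT : RowXFT := H22.rowXFT allJH allGAUSS allCHI

theorem allFAM1 : RowFAM1 := H62.rowFAM1 allJH allGAUSS allCHI allTH

theorem allFAM : RowFAM := H95.rowFAM allJH allCHI allTH allXFT allFAM1

theorem allLIP : RowLIP := H1.rowLIP allJH

theorem allMATCH : RowMATCH := H28.rowMATCH allJH allLIP

theorem allRA : RowRA := H41.rowRA allJH allCHI allLIP

theorem allROW : RowROW := H22.rowROW allSER allJH allCHI allFAM allRA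

theorem allCA : RowCA := H74.rowCA allCHI

theorem allCB : RowCB := H4.rowCB allJH allCHI allLIP allCA

theorem allPHI : RowPHI := H59.rowPHI allJH allGAUSS allLIP

theorem allCOL : RowCOL := H86.rowCOL allSER allJH allCHI allCA allCB allPHI

theorem allUNF : RowUNF := H59.rowUNF

theorem allVB : RowVB ∧ RowODD := H6.rowVB allSER allJH

theorem allUV : RowUV := H70.rowUV allSER allJH allFAM allROW allVB.1

theorem allSHIM : RowSHIM ∧ RowDUAL := H68.rowSHIM allSER allMATCH allROW allCOL allUNF allUV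

theorem allDEC : RowDEC := H57.rowDEC allSER allJH

theorem allT3 : RowT3 := H57.rowT3 allSER allJH allDEC

theorem allKB : RowKB := H25.rowKB allSER allJH allV3 allF9 allVB.2 allT3 allCOL allSHIM.1

theorem allKER : RowKER :=
  H25.rowKER allV3 allCLS allRAT allSTAB allEI2 allEI7 allSOC allWGEN allSUR allKB

theorem allBND : RowBND := H58.rowBND allSER allJH allLIP allPHI allDEC

theorem allUS : RowUS := H19.rowUS allSER allCHI allCA allPHI allBND

theorem allPET : RowPET := H86.rowPET allSER allDEC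

theorem allMEL : RowMEL := H36.rowMEL allSER allJH allLIP allPHI allBND

theorem allEXL : RowEXL := H63.rowEXL allSER allJH allGAUSS allDEC

theorem allCRIT : RowCRIT :=
  H62.rowCRIT allSER allCOL allUNF allSHIM.1 allSHIM.2 allVDIM allUS allPET allMEL

theorem allVOLN : RowVOLN := H88.rowVOLN

theorem allCUSPN : RowCUSPN := H75.rowCUSPN

theorem allREDN : RowREDN := H6.rowREDN

theorem allCNTN : RowCNTN := H6.rowCNTN allVOLN MP_1246c0_nt.H59.rowLAT allCUSPN allREDN

theorem allLOC6 : RowLOC6 := H22.rowLOC6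

theorem allFDN : RowFDN := H22.rowFDN

theorem allQN : RowQN := H16.rowQN

theorem allANK : RowANK := H6.rowANK

theorem allQO : RowQO := H96.rowQO

theorem allQG : RowQG := H53.rowQG allQO

theorem allORB : RowORB := H1.rowORB allQO

theorem allVEN : RowVEN := H11.rowVEN allQN allQO allQG allORB allANK

theorem allALGN : RowALGN := rowALGN allQN

theorem allCOUNT : RowCOUNT := rowCOUNT allQN allVEN allALGN allCNTN allLOC6 allFDN

end Pool.Agent.MP_5f72fe_nt.H3
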