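import Pool.Agent.MP_5f72fe_nt.H3.SpecB
import Pool.Agent.MP_1246c0_nt.H55.SpecC

/-! Statements, part C: class numbers, counting, and the shape of every row. -/

namespace Pool.Agent.MP_5f72fe_nt.H3

open Filter MeasureTheory NumberField Pool.Agent.MP_1246c0_nt.H55
open scoped MatrixGroups NumberTheorySymbols

noncomputable section

/-! ### Cubic forms of negative reduced discriminant -/

/-- the form `Re ((p + i q) (x - (u + i v) y)³)` -/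
def mkG (p q u v : ℝ) : Fm ℝ :=
  ![p, q * v - p * u, p * (u ^ 2 - v ^ 2) - 2 * q * u * v,
    q * (3 * u ^ 2 * v - v ^ 3) - p * (u ^ 3 - 3 * u * v ^ 2)]

theorem dsc_mkG (p q u v : ℝ) : dsc (mkG p q u v) = -(4 * v ^ 6 * (p ^ 2 + q ^ 2) ^ 2) := by
  simp only [dsc, mkG, Matrix.cons_val_zero, Matrix.cons_val_one, Matrix.cons_val]
  ring

/-- the truncated fundamental domain -/
def KG (T : ℝ) : Set (Fm ℝ) :=
  {f | ∃ p q u v : ℝ, 0 ≤ p ∧ |u| ≤ 1 / 2 ∧ 1 ≤ u ^ 2 + v ^ 2 ∧ 0 ≤ v ∧ v ≤ T ∧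
    4 * v ^ 6 * (p ^ 2 + q ^ 2) ^ 2 ≤ 1 ∧ f = mkG p q u v}

def RowVOLN : Prop := ∀ T : ℝ, IsCompact (KG T) ∧ volume (KG T) ≤ ENNReal.ofReal 1

def RowCUSPN : Prop :=
  ∃ C : ℝ, ∀ (T X : ℝ) (S : Finset (Fm ℤ)), 1 ≤ T → 0 < X →
    (∀ f ∈ S, ((-dsc f : ℤ) : ℝ) ≤ X ∧ ∃ p q u v : ℝ, 1 ≤ p ∧ |u| ≤ 1 / 2 ∧ T ≤ v ∧
      cst ℝ f = mkG p q u v) → S.card * √T ≤ C * X

def RowREDN : Prop :=
  ∀ f : Fm ℤ, Aniso f → dsc f < 0 → ∃ a b c d : ℤ, a * d - b * c = 1 ∧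
    ∃ p q u v : ℝ, 1 ≤ p ∧ |u| ≤ 1 / 2 ∧ 1 ≤ u ^ 2 + v ^ 2 ∧ 0 < v ∧
      cst ℝ (act f a b c d) = mkG p q u v

def RowCNTN : Prop :=
  ∀ (M : ℕ) (P : Fm ℤ → Prop) (ρ ε : ℝ), 0 < M → Dens M P ρ → 0 < ε →
    ∀ᶠ X : ℝ in atTop, ∀ S : Finset (Fm ℤ),
      (∀ f ∈ S, Aniso f ∧ dsc f < 0 ∧ ((-dsc f : ℤ) : ℝ) ≤ X ∧ AllC P f) →
      (∀ f ∈ S, ∀ g ∈ S, Eqv f g → f = g) → (S.card : ℝ) ≤ (ρ + ε) * X

def RowLOC6 : Prop := Dens 6 (fun f => dsc f % 12 = 5) (1 / 9)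

open Classical in
def RowFDN : Prop :=
  ∀ᶠ X : ℕ in atTop, (3 / 50 : ℝ) * X ≤
    (((Finset.range (X + 1)).filter fun n => n % 12 = 7 ∧ Squarefree n).card : ℝ)

/-! ### Imaginary quadratic fields -/

/-- a quadratic field with a square root of `-n` and its conjugation -/
structure QN {K : Type} [Field K] [NumberField K] (n : ℕ) (s : K) (τ : K ≃ₐ[ℚ] K) : Prop where
  rank : Module.finrank ℚ K = 2
  md : n % 12 = 7
  sf : Squarefree n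
  sq : s ^ 2 = -n
  conj : τ s = -s

/-- basic facts -/
structure RowQN : Prop where
  model : ∀ n : ℕ, n % 12 = 7 → Squarefree n →
    ∃ (K : Type) (_ : Field K) (_ : NumberField K) (s : K) (τ : K ≃ₐ[ℚ] K), QN n s τ
  rep : ∀ (K : Type) [Field K] [NumberField K] (n : ℕ) (s : K) (τ : K ≃ₐ[ℚ] K), QN n s τ →
    (∀ x : K, ∃ a b : ℚ, x = a + b * s ∧ τ x = a - b * s) ∧ (∀ a b : ℚ, a + b * s = 0 → a = 0 ∧ b = 0)
  int : ∀ (K : Type) [Field K] [NumberField K] (n : ℕ) (s : K) (τ : K ≃ₐ[ℚ] K), QN n s τ →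
    ∀ x : K, IsIntegral ℤ x ↔ ∃ a b : ℤ, x = a + b * ((1 + s) / 2)
  basis : ∀ (K : Type) [Field K] [NumberField K] (n : ℕ) (s : K) (τ : K ≃ₐ[ℚ] K), QN n s τ →
    ∀ I : Ideal (𝓞 K), I ≠ ⊥ → ∃ α ∈ I, ∃ β ∈ I,
      (α : K) * τ β - τ α * β = (Ideal.absNorm I : ℕ) * s ∧ ∀ x ∈ I, ∃ a b : ℤ, x = a * α + b * β
  norm : ∀ (K : Type) [Field K] [NumberField K] (n : ℕ) (s : K) (τ : K ≃ₐ[ℚ] K), QN n s τ →
    ∀ x : 𝓞 K, (x : K) * τ x = (Ideal.absNorm (Ideal.span {x}) : ℕ)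
  unit : ∀ (K : Type) [Field K] [NumberField K] (n : ℕ) (s : K) (τ : K ≃ₐ[ℚ] K), QN n s τ →
    ∀ x : 𝓞 K, IsUnit x → x = 1 ∨ x = -1

/-- existence of a representation -/
def RowANK : Prop := ∀ n : ℕ, n % 12 = 7 → Squarefree n → (Rp n).Nonempty

/-- the maximal order of the quaternion algebra of discriminant `3` -/
abbrev OO := QuaternionAlgebra ℤ (-1) (-1) (-1)

/-- the reduced norm -/
def nr (x : OO) : ℤ := x.re ^ 2 - x.re * x.imI + x.imI ^ 2 + (x.imJ ^ 2 - x.imJ * x.imK + x.imK ^ 2)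

/-- the element `a √-3 + (y + b √-3) j` -/
def emb (v : V) : OO := ⟨v.1, 2 * v.1, v.2.1 + v.2.2, 2 * v.2.2⟩

/-- arithmetic of the order -/
structure RowQO : Prop where
  nrStar : ∀ x : OO, x * star x = (nr x : OO) ∧ star x * x = (nr x : OO)
  nrMul : ∀ x y : OO, nr (x * y) = nr x * nr y
  nrPos : ∀ x : OO, x ≠ 0 → 0 < nr x
  noZero : ∀ x y : OO, x * y = 0 → x = 0 ∨ y = 0
  prin : ∀ I : Ideal OO, ∃ α : OO, ∀ x, x ∈ I ↔ ∃ y, x = y * α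
  embSq : ∀ v : V, emb v * emb v = -((v.2.1 ^ 2 + 3 * v.1 ^ 2 + 3 * v.2.2 ^ 2 : ℤ) : OO)
  half : ∀ (n : ℕ) (x : OO), n % 4 = 3 →
    ((2 * x - 1) * (2 * x - 1) = -(n : OO) ↔ ∃ v ∈ Rp n, emb v = 2 * x - 1)
  half' : ∀ (n : ℕ) (v : V), n % 4 = 3 → v ∈ Rp n → ∃ x : OO, emb v = 2 * x - 1
  cent : ∀ (n : ℕ) (v : V) (x α : OO), n % 4 = 3 → Squarefree n → v ∈ Rp n → emb v = 2 * x - 1 →
    α * x = x * α → ∃ a b : ℤ, α = a + b * x

/-- local facts -/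
structure RowQG : Prop where
  /-- the left ideal generated by the intertwiners is the unit ideal -/
  gen : ∀ (n : ℕ) (v w : V) (α : OO), n % 12 = 7 → Squarefree n → v ∈ Rp n → w ∈ Rp n →
    3 ∣ v.2.1 - w.2.1 → (∀ γ : OO, γ * emb w = emb v * γ → ∃ y, γ = y * α) → nr α = 1
  /-- orientation -/
  ori : ∀ (n : ℕ) (v w : V) (α : OO), n % 12 = 7 → v ∈ Rp n → w ∈ Rp n → ¬ 3 ∣ nr α →
    α * emb v = emb w * α → 3 ∣ v.2.1 - w.2.1
  three : ∀ (n : ℕ) (v : V) (α : OO), n % 12 = 7 → v ∈ Rp n → α * emb v = emb v * α →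
    3 ∣ nr α → ∃ β, α = 3 * β

/-- orbits of the unit group -/
def RowORB : Prop :=
  ∀ (n h : ℕ) (v₀ : V) (c : V → Fin h), n % 12 = 7 → Squarefree n → v₀ ∈ Rp n →
    (∀ i, ∃ v ∈ Rp n, 3 ∣ v.2.1 - v₀.2.1 ∧ c v = i) →
    (∀ v ∈ Rp n, ∀ w ∈ Rp n, 3 ∣ v.2.1 - v₀.2.1 → 3 ∣ w.2.1 - v₀.2.1 →
      (c v = c w ↔ ∃ u : OO, nr u = 1 ∧ u * emb v = emb w * u)) → (Rp0 n).card = 4 * h

/-- the number of representations is four times the class number -/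
def RowVEN : Prop :=
  ∀ (K : Type) [Field K] [NumberField K] (n : ℕ) (s : K) (τ : K ≃ₐ[ℚ] K), QN n s τ →
    (Rp0 n).card = 4 * Nat.card (ClassGroup (𝓞 K))

/-- cubic forms attached to a class of order three -/
def RowALGN : Prop :=
  ∀ (K : Type) [Field K] [NumberField K] (n : ℕ) (s : K) (τ : K ≃ₐ[ℚ] K), QN n s τ →
    3 ∣ Nat.card (ClassGroup (𝓞 K)) →
    ∃ f g : Fm ℤ, Aniso f ∧ Aniso g ∧ dsc f = -n ∧ dsc g = -n ∧ ¬ Eqv f g

open Classical in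
def RowCOUNT : Prop :=
  ∀ᶠ X : ℕ in atTop, (1 / 250 : ℝ) * X ≤
    (((Finset.range (X + 1)).filter fun n => n % 12 = 7 ∧ Squarefree n ∧ ¬ 3 ∣ (Rp0 n).card).card : ℝ)

/-- the theorem -/
def RowMAIN : Prop :=
  ∀ (k : ℕ) (f : CuspForm 𝒮ℒ (2 * k : ℕ)), Hecke k (aF f) → ∃ c : ℝ, 0 < c ∧ ∀ᶠ x : ℝ in atTop,
    c * x ≤ Set.ncard {D : ℤ | |(D : ℝ)| < x ∧ D ≠ 1 ∧ D % 4 = 1 ∧ Squarefree D ∧
      ∃ L, IsL D.natAbs k (aF f) L ∧ L k ≠ 0}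

/-! ### The shape of the rows -/

def OfSER1 : Prop := RowJH → RowSER1
def OfSER2 : Prop := RowJH → RowSER1 → RowSER2
def OfV3 : Prop := RowSER → RowJH → RowV3
def OfF9 : Prop := RowSER → RowJH → RowF9
def OfTH : Prop := RowJH → RowTH
def OfBASE : Prop := RowSER → RowJH → RowTH → RowINT → RowBASE
def OfMF3 : Prop := RowSER → RowJH → RowINT → RowBASE → RowNZ → RowMF3
def OfCLS : Prop := RowSER → RowJH → RowINT → RowBASE → RowNZ → RowMF3 → RowF9 → RowCLS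
def OfRAT : Prop := RowINT → RowRAT
def OfTAY : Prop := RowDEG → RowTAY
def OfSOC : Prop := RowDEG → RowTAY → RowSOC
def OfTER1 : Prop := RowSER → RowJH → RowTH → RowTER1
def OfTER : Prop := RowSER → RowPOL → RowTER1 → RowTER
def OfWDIM : Prop := RowSER → RowJH → RowINT → RowBASE → RowNZ → RowWDIM
def OfWGEN : Prop := RowSER → RowJH → RowINT → RowBASE → RowNZ → RowWGEN
def OfSUR : Prop :=
  RowRAT → RowSTAB → RowEI2 → RowEI7 → RowSOC → RowPOL → RowTER → RowWDIM → RowSUR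
def OfKB : Prop := RowSER → RowJH → RowV3 → RowF9 → RowODD → RowT3 → RowCOL → RowSHIM → RowKB
def OfKER : Prop := RowV3 → RowCLS → RowRAT → RowSTAB → RowEI2 → RowEI7 → RowSOC → RowWGEN →
  RowSUR → RowKB → RowKER
def OfVDIM : Prop := RowSER → RowJH → RowINT → RowBASE → RowNZ → RowVDIM
def OfT3 : Prop := RowSER → RowJH → RowDEC → RowT3
def OfGAUSS : Prop := RowSER → RowJH → RowTH → RowGAUSS
def OfXFT : Prop := RowJH → RowGAUSS → RowCHI → RowXFT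
def OfFAM1 : Prop := RowJH → RowGAUSS → RowCHI → RowTH → RowFAM1
def OfFAM : Prop := RowJH → RowCHI → RowTH → RowXFT → RowFAM1 → RowFAM
def OfLIP : Prop := RowJH → RowLIP
def OfMATCH : Prop := RowJH → RowLIP → RowMATCH
def OfRA : Prop := RowJH → RowCHI → RowLIP → RowRA
def OfROW : Prop := RowSER → RowJH → RowCHI → RowFAM → RowRA → RowROW
def OfCA : Prop := RowCHI → RowCA
def OfCB : Prop := RowJH → RowCHI → RowLIP → RowCA → RowCB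
def OfPHI : Prop := RowJH → RowGAUSS → RowLIP → RowPHI
def OfCOL : Prop := RowSER → RowJH → RowCHI → RowCA → RowCB → RowPHI → RowCOL
def OfVB : Prop := RowSER → RowJH → RowVB ∧ RowODD
def OfUV : Prop := RowSER → RowJH → RowFAM → RowROW → RowVB → RowUV
def OfSHIM : Prop := RowSER → RowMATCH → RowROW → RowCOL → RowUNF → RowUV → RowSHIM ∧ RowDUAL
def OfDEC : Prop := RowSER → RowJH → RowDEC
def OfBND : Prop := RowSER → RowJH → RowLIP → RowPHI → RowDEC → RowBND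
def OfUS : Prop := RowSER → RowCHI → RowCA → RowPHI → RowBND → RowUS
def OfPET : Prop := RowSER → RowDEC → RowPET
def OfMEL : Prop := RowSER → RowJH → RowLIP → RowPHI → RowBND → RowMEL
def OfEXL : Prop := RowSER → RowJH → RowGAUSS → RowDEC → RowEXL
def OfCRIT : Prop := RowSER → RowCOL → RowUNF → RowSHIM → RowDUAL → RowVDIM → RowUS → RowPET →
  RowMEL → RowCRIT
def OfCNTN : Prop := RowVOLN → RowLAT → RowCUSPN → RowREDN → RowCNTN
def OfQG : Prop := RowQO → RowQG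
def OfORB : Prop := RowQO → RowORB
def OfVEN : Prop := RowQN → RowQO → RowQG → RowORB → RowANK → RowVEN
def OfALGN : Prop := RowQN → RowALGN
def OfCOUNT : Prop := RowQN → RowVEN → RowALGN → RowCNTN → RowLOC6 → RowFDN → RowCOUNT
def OfMAIN : Prop := RowSER → RowKER → RowCRIT → RowEXL → RowCOUNT → RowMAIN

end

end Pool.Agent.MP_5f72fe_nt.H3
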