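import Pool.Agent.MP_5f72fe_nt.H3.SocA
import Pool.Agent.MP_5f72fe_nt.H3.SpecC

/-! The socle theorem. -/

namespace Pool.Agent.MP_5f72fe_nt.H3

variable {φ : V → ZMod 3}

theorem three0 : (3 : ZMod 3) = 0 := rfl

theorem odd0 {x : ZMod 3} {i : ℕ} (hi : Odd i) (h : x = (-1) ^ i * x) : x = 0 := by
  rw [hi.neg_one_pow] at h
  linear_combination 2 * h - x * three0

theorem InC.odd1 (hD : RowDEG) (h : InC φ) (i j : ℕ) (hi : Odd i) : cof i j (ch φ 0) = 0 := by
  refine odd0 hi ?_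
  rw [← hD.neg1]
  congr 1
  funext w
  exact h.eA (by ring) rfl rfl

theorem InC.odd2 (hD : RowDEG) (h : InC φ) (r : ℤ) (i j : ℕ) (hj : Odd j) :
    cof i j (ch φ r) = 0 := by
  refine odd0 hj ?_
  rw [← hD.neg2]
  congr 1
  funext w
  exact h.eB rfl rfl (by ring)

theorem three_terms (hD : RowDEG) {m : ℕ} {χ Q P : ℤ × ℤ → ZMod 3} (hQ : Dlt m Q) (hP : Dlt m P)
    (e : ∀ w, χ w = Q (w.2, w.1) + P (-w.2, w.1) + P (w.2, w.1)) :
    Dlt m χ ∧ ∀ i j, cof j i χ = cof i j Q + (1 + (-1) ^ i) * cof i j P := by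
  have e' : χ = (fun w => Q (w.2, w.1)) + (fun w => (fun w : ℤ × ℤ => P (-w.1, w.2)) (w.2, w.1)) +
      fun w => P (w.2, w.1) := funext e
  rw [e']
  refine ⟨(((hD.dneg _ _ hQ).2.2).add (hD.dneg _ _ (hD.dneg _ _ hP).1).2.2).add
    (hD.dneg _ _ hP).2.2, fun i j => ?_⟩
  rw [cof_add, cof_add, hD.swap j i Q, hD.swap j i P, hD.swap j i fun w => P (-w.1, w.2), hD.neg1]
  ring

theorem InC.eqA (hD : RowDEG) (hT : RowTAY) (h : InC φ) {m : ℕ} (hm : Dg (m + 1) φ) :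
    Dlt (m + 1) (ch (T2 φ) 0) ∧ ∀ i j, m ≤ i + j + 2 → cof j i (ch (T2 φ) 0) =
      cof i j (ch φ 0) + (1 + (-1) ^ i) * tay 0 0 1 0 0 (-1) (ch φ 1) i j := by
  have hP := h.key hT 1 hm.2 1 (-1) 0 0 0 4 0 0 (-2) 0 0 1 0 0 (-1) (by decide) (by decide)
    (by decide) (by decide) (by decide) (by decide) (by decide) _ fun _ => rfl
  have := three_terms hD (χ := ch (T2 φ) 0) hm.1 hP.1 fun w => by
    simp only [ch, T2, rt, sg, sg']
    congr 1
    · congr 1
      · exact h.eB (by ring) rfl (by ring)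
      · exact h.eAB (by ring) (by ring) (by ring)
    · exact h.eB (by ring) (by ring) (by ring)
  exact ⟨this.1, fun i j e => by rw [this.2, hP.2 i j e]⟩

theorem InC.eqB (hD : RowDEG) (hT : RowTAY) (h : InC φ) {m : ℕ} (hm : Dg (m + 1) φ) :
    Dlt (m + 1) (ch (T2 φ) 1) ∧ ∀ i j, m ≤ i + j + 2 → cof j i (ch (T2 φ) 1) =
      tay 0 0 1 0 0 (-1) (ch φ 0) i j +
        (1 + (-1) ^ i) * tay 1 (-1) (-1) (-1) 1 1 (ch φ 1) i j := by
  have hQ := h.key hT 0 hm.1 4 0 1 0 0 (-2) 0 0 1 0 0 1 0 0 (-1) (by decide) (by decide)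
    (by decide) (by decide) (by decide) (by decide) (by decide) _ fun _ => rfl
  have hP := h.key hT 1 hm.2 (-5) (-1) (-2) 1 (-1) 1 6 3 (-2) 1 (-1) (-1) (-1) 1 1 (by decide)
    (by decide) (by decide) (by decide) (by decide) (by decide) (by decide) _ fun _ => rfl
  have := three_terms hD (χ := ch (T2 φ) 1) hQ.1 hP.1 fun w => by
    simp only [ch, T2]
    rw [← h.rot' (rt _), ← h.rot' (rt (sg _)), ← h.rot' (rt (sg' _))]
    simp only [rt, sg, sg']
    congr 1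
    · congr 1
      · exact h.eB (by ring) (by ring) (by ring)
      · exact h.eAB (by ring) (by ring) (by ring)
    · exact h.eB (by ring) (by ring) (by ring)
  exact ⟨this.1, fun i j e => by rw [this.2, hP.2 i j e, hQ.2 i j e]⟩

theorem InC.top2 (hD : RowDEG) (hT : RowTAY) (h : InC φ) {m : ℕ} (hm : Dg (m + 1) φ) :
    Dg (m + 1) (T2 φ) ∧ ∀ i j, i + j = m →
      cof j i (ch (T2 φ) 0) = cof i j (ch φ 0) + (1 + (-1) ^ i) * cof i j (ch φ 1) ∧
      cof j i (ch (T2 φ) 1) = cof i j (ch φ 0) + (1 + (-1) ^ i) * cof i j (ch φ 1) := by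
  refine ⟨⟨(h.eqA hD hT hm).1, (h.eqB hD hT hm).1⟩, fun i j e => ⟨?_, ?_⟩⟩
  · rw [(h.eqA hD hT hm).2 i j (by omega), tay_top hD hm.2 e]
  · rw [(h.eqB hD hT hm).2 i j (by omega), tay_top hD hm.2 e, tay_top hD hm.1 e]

theorem InC.twice (hD : RowDEG) (hT : RowTAY) (h : InC φ) (h' : InC (T2 φ)) {m : ℕ}
    (hm : Dg (m + 1) φ) : Dg m (T2 (T2 φ)) := by
  obtain ⟨d1, e1⟩ := h.top2 hD hT hm
  obtain ⟨d2, e2⟩ := h'.top2 hD hT d1
  have key : ∀ i j, i + j = m →
      cof i j (ch (T2 φ) 0) + (1 + (-1) ^ i) * cof i j (ch (T2 φ) 1) = 0 := fun i j e => by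
    have e3 : cof i j (ch (T2 φ) 1) = cof i j (ch (T2 φ) 0) :=
      (e1 j i (by omega)).2.trans (e1 j i (by omega)).1.symm
    rw [e3]
    rcases Nat.even_or_odd i with hi | hi
    · rw [hi.neg_one_pow]
      linear_combination cof i j (ch (T2 φ) 0) * three0
    · rw [h'.odd1 hD i j hi]
      ring
  exact ⟨hD.down _ _ d2.1 fun j i e => (e2 i j (by omega)).1.trans (key i j (by omega)),
    hD.down _ _ d2.2 fun j i e => (e2 i j (by omega)).2.trans (key i j (by omega))⟩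

theorem ch_T7 (φ : V → ZMod 3) (r : ℤ) : ch (T7 φ + φ) r =
    (fun w : ℤ × ℤ => φ (p7 1 (r + 3 * w.1, 1, 3 * w.2))) +
      (fun w : ℤ × ℤ => φ (p7 (-1) (r + 3 * w.1, 1, 3 * w.2))) +
      ((fun w : ℤ × ℤ => φ (q7 1 (r + 3 * w.1, 1, 3 * w.2))) +
        (fun w : ℤ × ℤ => φ (q7 1 (sg (r + 3 * w.1, 1, 3 * w.2)))) +
        (fun w : ℤ × ℤ => φ (q7 1 (sg' (r + 3 * w.1, 1, 3 * w.2))))) +
      ((fun w : ℤ × ℤ => φ (q7 (-1) (r + 3 * w.1, 1, 3 * w.2))) +
        (fun w : ℤ × ℤ => φ (q7 (-1) (sg (r + 3 * w.1, 1, 3 * w.2)))) +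
        (fun w : ℤ × ℤ => φ (q7 (-1) (sg' (r + 3 * w.1, 1, 3 * w.2))))) + ch φ r := rfl

theorem InC.low7 (hD : RowDEG) (hT : RowTAY) (h : InC φ) {m : ℕ} (hm : Dg (m + 1) φ)
    (he : ∀ i j, i + j = m → cof i j (ch φ 1) = cof i j (ch φ 0) ∧
      (-1) ^ i * cof i j (ch φ 1) = cof i j (ch φ 0)) : Dg m (T7 φ + φ) := by
  have key : ∀ r, Dlt m (ch (T7 φ + φ) r) := fun r => by
    have g := good_ch r
    have a0 := h.top hD hT hm he g
    have a1 := h.top hD hT hm he (g.p7 1)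
    have a2 := h.top hD hT hm he (g.p7 (-1))
    have a3 := h.top hD hT hm he (g.q7 1)
    have a4 := h.top hD hT hm he (g.sg.q7 1)
    have a5 := h.top hD hT hm he (g.sg'.q7 1)
    have a6 := h.top hD hT hm he (g.q7 (-1))
    have a7 := h.top hD hT hm he (g.sg.q7 (-1))
    have a8 := h.top hD hT hm he (g.sg'.q7 (-1))
    rw [ch_T7]
    refine hD.down _ _ ((((a1.1.add a2.1).add ((a3.1.add a4.1).add a5.1)).add
      ((a6.1.add a7.1).add a8.1)).add a0.1) fun i j e => ?_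
    have b0 : cof i j (ch φ r) = _ := a0.2 i j e
    simp only [cof_add]
    rw [a1.2 i j e, a2.2 i j e, a3.2 i j e, a4.2 i j e, a5.2 i j e, a6.2 i j e, a7.2 i j e,
      a8.2 i j e, b0]
    linear_combination 3 * cof i j (ch φ 0) * three0
  exact ⟨key 0, key 1⟩

theorem InC.eq7 (hD : RowDEG) (hT : RowTAY) (h : InC φ) {i : ℕ} (hi : Even i)
    (hm : Dg (i + 2 + 1) φ) : cof i 0 (ch (T7 φ + φ) 0) =
      2 * tay 0 (-1) 0 0 0 0 (ch φ 0) i 0 + 2 * tay 1 0 1 0 0 (-1) (ch φ 1) i 0 +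
        4 * tay (-1) 1 1 1 (-1) (-1) (ch φ 1) i 0 + cof i 0 (ch φ 0) := by
  obtain ⟨S1, e1, c1⟩ : ∃ S : ℤ × ℤ → ZMod 3, (∀ w : ℤ × ℤ, S w =
      φ (-42 * w.1, 13 + 27 * w.2, -3 + 39 * w.2)) ∧
      cof i 0 S = tay 0 (-1) 0 0 0 0 (ch φ 0) i 0 :=
    ⟨_, fun _ => rfl, (h.key hT 0 hm.1 13 0 3 0 (-1) (-14) 0 0 13 0 (-1) 0 0 0 0 (by decide)
      (by decide) (by decide) (by decide) (by decide) (by decide) (by decide) _
      fun w => h.e0 (by ring) (by ring) (by ring)).2 i 0 (by omega)⟩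
  obtain ⟨S2, e2, c2⟩ : ∃ S : ℤ × ℤ → ZMod 3, (∀ w : ℤ × ℤ, S w =
      φ (4 + 3 * w.1, 1 - 36 * w.1, 21 * w.2)) ∧
      cof i 0 S = tay 1 0 1 0 0 (-1) (ch φ 1) i 0 :=
    ⟨_, fun _ => rfl, (h.key hT 1 hm.2 1 (-4) 0 1 0 13 0 0 7 1 0 1 0 0 (-1) (by decide)
      (by decide) (by decide) (by decide) (by decide) (by decide) (by decide) _
      fun w => h.e0 (by ring) (by ring) (by ring)).2 i 0 (by omega)⟩
  obtain ⟨S3, e3, c3⟩ : ∃ S : ℤ × ℤ → ZMod 3, (∀ w : ℤ × ℤ, S w =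
      φ (-8 + 12 * w.1 - 72 * w.2, 22 + 72 * w.1 - 54 * w.2, -6 + 72 * w.1 + 30 * w.2)) ∧
      cof i 0 S = tay (-1) 1 1 1 (-1) (-1) (ch φ 1) i 0 :=
    ⟨_, fun _ => rfl, (h.key hT 1 hm.2 22 8 (-6) (-10) (-2) (-20) (-6) 24 10 (-1) 1 1 1 (-1) (-1)
      (by decide) (by decide) (by decide) (by decide) (by decide) (by decide) (by decide) _
      fun w => h.e0 (by ring) (by ring) (by ring)).2 i 0 (by omega)⟩
  have a1 : (fun w : ℤ × ℤ => φ (p7 1 (0 + 3 * w.1, 1, 3 * w.2))) = S1 := funext fun w => by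
    rw [← h.rot', e1]
    dsimp only [p7, q7, sg, sg']
    exact h.e0 (by ring) (by ring) (by ring)
  have a2 : (fun w : ℤ × ℤ => φ (p7 (-1) (0 + 3 * w.1, 1, 3 * w.2))) =
      fun w => S1 (w.1, -w.2) := funext fun w => by
    rw [← h.rot, e1]
    dsimp only [p7, q7, sg, sg']
    exact h.eB (by ring) (by ring) (by ring)
  have a3 : (fun w : ℤ × ℤ => φ (q7 1 (0 + 3 * w.1, 1, 3 * w.2))) =
      fun w => S2 (-w.1, w.2) := funext fun w => by
    rw [e2]
    exact h.eA (by ring) (by ring) (by ring)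
  have a6 : (fun w : ℤ × ℤ => φ (q7 (-1) (0 + 3 * w.1, 1, 3 * w.2))) = S2 := funext fun w => by
    rw [e2]
    exact h.e0 (by ring) (by ring) (by ring)
  have a7 : (fun w : ℤ × ℤ => φ (q7 (-1) (sg (0 + 3 * w.1, 1, 3 * w.2)))) = S3 :=
    funext fun w => by
    rw [← h.rot', e3]
    dsimp only [p7, q7, sg, sg']
    exact h.e0 (by ring) (by ring) (by ring)
  have a8 : (fun w : ℤ × ℤ => φ (q7 (-1) (sg' (0 + 3 * w.1, 1, 3 * w.2)))) =
      fun w => S3 (w.1, -w.2) := funext fun w => by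
    rw [← h.rot, e3]
    dsimp only [p7, q7, sg, sg']
    exact h.eB (by ring) (by ring) (by ring)
  have a4 : (fun w : ℤ × ℤ => φ (q7 1 (sg (0 + 3 * w.1, 1, 3 * w.2)))) =
      fun w => S3 (-w.1, w.2) := funext fun w => by
    rw [← h.rot', e3]
    dsimp only [p7, q7, sg, sg']
    exact h.eA (by ring) (by ring) (by ring)
  have a5 : (fun w : ℤ × ℤ => φ (q7 1 (sg' (0 + 3 * w.1, 1, 3 * w.2)))) =
      fun w => (fun w : ℤ × ℤ => S3 (-w.1, w.2)) (w.1, -w.2) := funext fun w => by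
    rw [← h.rot]
    simp only [e3, q7, sg, sg']
    exact h.eAB (by ring) (by ring) (by ring)
  rw [ch_T7, a1, a2, a3, a4, a5, a6, a7, a8]
  rw [cof_add, cof_add, cof_add, cof_add, cof_add, cof_add, cof_add, cof_add, hD.neg2 i 0 S1,
    hD.neg2 i 0 S3, hD.neg2 i 0 fun w => S3 (-w.1, w.2), hD.neg1, hD.neg1, hi.neg_one_pow, c1, c2, c3]
  ring

theorem InC.zero_of (h : InC φ) (hm : Dg 0 φ) : φ = 0 := by
  have := h.cover (c := 0) (fun w => congrFun (hm.1 0 0 le_rfl) w)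
    fun w => congrFun (hm.2 0 0 le_rfl) w
  rwa [zero_smul] at this

theorem InC.fin (hD : RowDEG) (hT : RowTAY) (h : InC φ) {m : ℕ} (hm : Dg (m + 1) φ)
    (h2 : T2 φ = 0) (h7 : Dg m (T7 φ + φ) → T7 φ + φ = 0) : Dg m φ ∨ ∃ c : ZMod 3, φ = c • one3 := by
  have zF := fun i j => hD.zero (m + 1) i j _ hm.1
  have zG := fun i j => hD.zero (m + 1) i j _ hm.2
  have oG := h.odd2 hD 1
  have oF := h.odd2 hD 0
  have A : ∀ i j, m ≤ i + j + 2 → Even i →
      cof i j (ch φ 0) = tay 0 0 1 0 0 (-1) (ch φ 1) i j := fun i j e hi => by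
    have := (h.eqA hD hT hm).2 i j e
    rw [h2, hi.neg_one_pow, show ch 0 0 = 0 from rfl, cof_zero] at this
    linear_combination -this - tay 0 0 1 0 0 (-1) (ch φ 1) i j * three0
  have B : ∀ i j, m ≤ i + j + 2 → Even i → tay 0 0 1 0 0 (-1) (ch φ 0) i j =
      tay 1 (-1) (-1) (-1) 1 1 (ch φ 1) i j := fun i j e hi => by
    have := (h.eqB hD hT hm).2 i j e
    rw [h2, hi.neg_one_pow, show ch 0 1 = 0 from rfl, cof_zero] at this
    linear_combination -this - tay 1 (-1) (-1) (-1) 1 1 (ch φ 1) i j * three0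
  have C : ∀ i j, i + j + 1 = m → Even i → cof i j (ch φ 0) = cof i j (ch φ 1) ∧
      cof (i + 1) j (ch φ 1) = cof i (j + 1) (ch φ 1) := fun i j e hi => by
    have a := A i j (by omega) hi
    have b := B i j (by omega) hi
    simp only [tay] at a b
    rw [zG (i + 2) j (by omega), zG i (j + 2) (by omega)] at a b
    rw [zF (i + 2) j (by omega), zF i (j + 2) (by omega), zG (i + 1) (j + 1) (by omega),
      zG (i + 3) (j - 1) (by omega), zG (i - 1) (j + 3) (by omega)] at b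
    push_cast at a b
    exact ⟨by linear_combination a, by linear_combination b - a⟩
  rcases Nat.even_or_odd m with hm2 | hm2
  · have E : ∀ i j, i + j = m → cof i j (ch φ 1) = cof i j (ch φ 0) ∧
        (-1) ^ i * cof i j (ch φ 1) = cof i j (ch φ 0) := fun i j e => by
      rcases Nat.even_or_odd i with hi | hi
      · rw [hi.neg_one_pow, one_mul, A i j (by omega) hi, tay_top hD hm.2 e]
        exact ⟨rfl, rfl⟩
      · have hj : Odd j := by grind
        rw [oG i j hj, oF i j hj, mul_zero]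
        exact ⟨rfl, rfl⟩
    have Z : ∀ i j, i + (j + 1) = m → cof i (j + 1) (ch φ 1) = 0 := fun i j e => by
      rcases Nat.even_or_odd j with hj | hj
      · exact oG _ _ hj.add_one
      · rw [← (C i j e (by grind)).2]
        exact oG _ _ hj
    obtain rfl | ⟨i, rfl⟩ : m = 0 ∨ ∃ i, m = i + 2 := by
      rcases m with _ | _ | m
      · exact Or.inl rfl
      · exact absurd hm2 (by decide)
      · exact Or.inr ⟨m, rfl⟩
    · exact Or.inr ⟨_, h.cover hm.1.const fun w => (hm.2.const w).trans (E 0 0 rfl).1⟩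
    · have hi : Even i := by grind
      have e7 := h.eq7 hD hT hi hm
      rw [h7 (h.low7 hD hT hm E), show ch 0 0 = 0 from rfl, cof_zero] at e7
      have a := A i 0 (by omega) hi
      have b := B i 0 (by omega) hi
      have z2 : cof i 2 (ch φ 1) = 0 := Z i 1 rfl
      have z3 : cof i 2 (ch φ 0) = 0 := (E i 2 rfl).1.symm.trans z2
      simp only [tay, zero_add] at a b e7
      rw [z2] at a b e7
      rw [z3, oG i 1 odd_one, oG (i + 1) 1 odd_one, oG (i - 1) 3 (by decide)] at b e7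
      rw [oF i 1 odd_one] at e7
      rw [← (E (i + 2) 0 rfl).1] at b
      push_cast at a b e7
      have c0 : cof (i + 2) 0 (ch φ 1) = 0 := by
        linear_combination b - a - e7 + (-cof i 0 (ch φ 0) - 2 * cof i 0 (ch φ 1) -
          cof (i + 1) 0 (ch φ 1) + (2 - 3 * (i : ZMod 3)) * cof (i + 2) 0 (ch φ 1)) * three0
      have G0 : ∀ i' j, i' + j = i + 2 → cof i' j (ch φ 1) = 0 := fun i' j e => by
        rcases j with _ | j
        · rw [show i' = i + 2 from e, c0]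
        · exact Z i' j e
      exact Or.inl ⟨hD.down _ _ hm.1 fun i' j e => (E i' j e).1.symm.trans (G0 i' j e),
        hD.down _ _ hm.2 G0⟩
  · refine Or.inl ⟨hD.down _ _ hm.1 fun i j e => ?_, hD.down _ _ hm.2 fun i j e => ?_⟩
    · rcases Nat.even_or_odd i with hi | hi
      · exact oF i j (by grind)
      · exact h.odd1 hD i j hi
    · rcases Nat.even_or_odd j with hj | hj
      · obtain ⟨i, rfl⟩ : ∃ i', i = i' + 1 := ⟨i - 1, by grind⟩
        rw [(C i j (by omega) (by grind)).2]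
        exact oG _ _ hj.add_one
      · exact oG i j hj

theorem rowSOC : OfSOC := by
  intro hD hT W hW hS hne
  obtain ⟨φ, hφ, h0⟩ := (Submodule.ne_bot_iff W).1 hne
  obtain ⟨m, hm⟩ := (hW φ hφ).dg hD
  by_contra h1
  have key : ∀ m, ∀ φ ∈ W, Dg m φ → φ = 0 := by
    intro m
    induction m with
    | zero => exact fun φ hφ => (hW φ hφ).zero_of
    | succ m ih =>
      have k : ∀ φ ∈ W, Dg (m + 1) φ → T2 φ = 0 → φ = 0 := fun φ hφ hm h2 => by
        rcases (hW φ hφ).fin hD hT hm h2 (ih _ (W.add_mem (hS φ hφ).2 hφ)) with h | ⟨c, h⟩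
        · exact ih φ hφ h
        · by_cases hc : c = 0
          · rw [h, hc, zero_smul]
          · refine absurd ?_ h1
            have := W.smul_mem c⁻¹ hφ
            rwa [h, smul_smul, inv_mul_cancel₀ hc, one_smul] at this
      intro φ hφ hm
      have h' := (hS φ hφ).1
      exact k φ hφ hm (k _ h' ((hW φ hφ).top2 hD hT hm).1
        (ih _ (hS _ h').1 ((hW φ hφ).twice hD hT (hW _ h') hm)))
  exact h0 (key m φ hφ hm)

end Pool.Agent.MP_5f72fe_nt.H3
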