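import Mathlib

/-! Non-vanishing of quadratic twists of level one eigenforms, statements, part A: series, the plus
space, ternary theta series modulo `3`. -/

namespace Pool.Agent.MP_5f72fe_nt.H3

open Complex Filter Topology
open scoped Real MatrixGroups PowerSeries UpperHalfPlane

noncomputable section

/-! ### Series -/

/-- `e(x)` -/
def E (x : ℂ) : ℂ := cexp (2 * π * I * x)

/-- `√(-iτ)` -/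
def Jh (τ : ℂ) : ℂ := (-I * τ) ^ (1 / 2 : ℂ)

/-- radius of convergence at least `1` -/
def Sm (c : ℕ → ℂ) : Prop := ∀ r : ℝ, 0 ≤ r → r < 1 → Summable fun n => ‖c n‖ * r ^ n

/-- `∑ c(n) e(nτ/M)` -/
def ser (M : ℕ) (c : ℕ → ℂ) (τ : ℂ) : ℂ := ∑' n : ℕ, c n * E (n * τ / M)

/-- the part with index of parity `μ` -/
def par (μ : ℕ) (c : ℕ → ℂ) : ℕ → ℂ := fun n => if n % 2 = μ then c n else 0

/-- the part with index `1` modulo `3` -/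
def cls1 (c : ℕ → ℂ) : ℕ → ℂ := fun n => if n % 3 = 1 then c n else 0

/-- coefficients of an integral power series -/
def cz (F : ℤ⟦X⟧) : ℕ → ℂ := fun n => ((PowerSeries.coeff n F : ℤ) : ℂ)

/-- the function of an integral power series in `e(τ/12)` -/
def sr (F : ℤ⟦X⟧) : ℂ → ℂ := ser 12 (cz F)

/-- Fourier coefficients of a function of period `1` -/
def aF (f : ℍ → ℂ) (n : ℕ) : ℂ := (UpperHalfPlane.qExpansion 1 f).coeff n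

/-- holomorphic, of period `1`, bounded at `i∞` -/
def Hol1 (F : ℂ → ℂ) : Prop :=
  DifferentiableOn ℂ F {τ | 0 < τ.im} ∧ (∀ τ : ℂ, 0 < τ.im → F (τ + 1) = F τ) ∧
    ∃ C Y : ℝ, ∀ τ : ℂ, Y ≤ τ.im → ‖F τ‖ ≤ C

/-- an expansion in `e((ρ + n) τ)`, `n ≥ 0` -/
def Ex (ρ : ℝ) (F : ℂ → ℂ) : Prop := Hol1 fun τ => F τ * E (-(ρ * τ))

/-- the coefficient of `e(ρ τ)` is `l` -/
def Ld (ρ : ℝ) (F : ℂ → ℂ) (l : ℂ) : Prop :=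
  Tendsto (fun τ => F τ * E (-(ρ * τ))) (comap Complex.im atTop) (𝓝 l)

/-- basic facts on series -/
structure RowSER1 : Prop where
  nsum : ∀ (M : ℕ) (c : ℕ → ℂ) (τ : ℂ), 0 < M → Sm c → 0 < τ.im →
    Summable fun n : ℕ => ‖c n * E (n * τ / M)‖
  diff : ∀ (M : ℕ) (c : ℕ → ℂ), 0 < M → Sm c → DifferentiableOn ℂ (ser M c) {τ | 0 < τ.im}
  uniq : ∀ (M : ℕ) (c : ℕ → ℂ) (Y : ℝ), 0 < M →
    (∀ τ : ℂ, Y < τ.im → HasSum (fun n : ℕ => c n * E (n * τ / M)) 0) → c = 0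
  mul : ∀ (M : ℕ) (F G : ℂ⟦X⟧), 0 < M → Sm (fun n => PowerSeries.coeff n F) →
    Sm (fun n => PowerSeries.coeff n G) → Sm (fun n => PowerSeries.coeff n (F * G)) ∧
      ∀ τ : ℂ, 0 < τ.im → ser M (fun n => PowerSeries.coeff n (F * G)) τ =
        ser M (fun n => PowerSeries.coeff n F) τ * ser M (fun n => PowerSeries.coeff n G) τ
  /-- the integral series with `Sm` form a subring and `sr` is a ring homomorphism on it -/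
  ring : ∃ R : Subring ℤ⟦X⟧, (∀ F, F ∈ R ↔ Sm (cz F)) ∧ ∀ τ : ℂ, 0 < τ.im →
    ∃ φ : R →+* ℂ, ∀ F : R, φ F = sr F τ
  ex : ∀ (M r : ℕ) (c : ℕ → ℂ), 0 < M → Sm c → (∀ n, c n ≠ 0 → ∃ t, n = r + M * t) →
    Ex (r / M) (ser M c) ∧ Ld (r / M) (ser M c) (c r)
  toSer : ∀ (M r : ℕ) (F : ℂ → ℂ), 0 < M → Ex (r / M) F → ∃ c : ℕ → ℂ, Sm c ∧
    (∀ n, c n ≠ 0 → ∃ t, n = r + M * t) ∧ ∀ τ : ℂ, 0 < τ.im → F τ = ser M c τ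

/-- expansions at `i∞` and modular forms -/
structure RowSER2 : Prop where
  exAdd : ∀ (ρ : ℝ) (F G : ℂ → ℂ) (x y : ℂ), Ex ρ F → Ex ρ G → Ex ρ fun τ => x * F τ + y * G τ
  exMul : ∀ (ρ σ : ℝ) (F G : ℂ → ℂ), Ex ρ F → Ex σ G → Ex (ρ + σ) fun τ => F τ * G τ
  exDiv : ∀ (ρ σ : ℝ) (F G : ℂ → ℂ) (l : ℂ), Ex ρ F → Ex σ G → Ld σ G l → l ≠ 0 →
    (∀ τ : ℂ, 0 < τ.im → G τ ≠ 0) → Ex (ρ - σ) fun τ => F τ / G τ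
  exSub : ∀ (ρ : ℝ) (F : ℂ → ℂ) (n : ℕ), Ex (ρ + n) F → Ex ρ F
  exUp : ∀ (ρ : ℝ) (F : ℂ → ℂ), Ex ρ F → Ld ρ F 0 → Ex (ρ + 1) F
  exLd : ∀ (ρ : ℝ) (F : ℂ → ℂ), Ex ρ F → ∃ l, Ld ρ F l
  exScale : ∀ (ρ : ℝ) (F : ℂ → ℂ) (t : ℕ) (l : ℂ), 0 < t → Ex ρ F → Ld ρ F l →
    Ex (t * ρ) (fun τ => F (t * τ)) ∧ Ld (t * ρ) (fun τ => F (t * τ)) l
  exCongr : ∀ (ρ : ℝ) (F G : ℂ → ℂ), (∀ τ : ℂ, 0 < τ.im → F τ = G τ) → Ex ρ F → Ex ρ G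
  ldMul : ∀ (ρ σ : ℝ) (F G : ℂ → ℂ) (l m : ℂ), Ld ρ F l → Ld σ G m →
    Ld (ρ + σ) (fun τ => F τ * G τ) (l * m)
  lev : ∀ (w : ℤ) (F : ℂ → ℂ), Hol1 F → (∀ τ : ℂ, 0 < τ.im → F (-1 / τ) = τ ^ w * F τ) →
    ∃ f : ModularForm 𝒮ℒ w, ∀ z : ℍ, f z = F z
  levC : ∀ (w : ℤ) (F : ℂ → ℂ), Ex 1 F → (∀ τ : ℂ, 0 < τ.im → F (-1 / τ) = τ ^ w * F τ) →
    ∃ f : CuspForm 𝒮ℒ w, ∀ z : ℍ, f z = F z
  mf : ∀ (w : ℤ) (f : ModularForm 𝒮ℒ w), Sm (aF f) ∧ (∀ z : ℍ, f z = ser 1 (aF f) z) ∧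
    ∀ τ : ℂ, 0 < τ.im → ser 1 (aF f) (-1 / τ) = τ ^ w * ser 1 (aF f) τ
  cf : ∀ (w : ℤ) (f : CuspForm 𝒮ℒ w), Sm (aF f) ∧ aF f 0 = 0 ∧ (∀ z : ℍ, f z = ser 1 (aF f) z) ∧
    ∀ τ : ℂ, 0 < τ.im → ser 1 (aF f) (-1 / τ) = τ ^ w * ser 1 (aF f) τ
  /-- the coefficients of cusp forms are linear and separate -/
  cfLin : ∀ w : ℤ, ∃ A : CuspForm 𝒮ℒ w →ₗ[ℂ] (ℕ → ℂ), Function.Injective A ∧ ∀ f, A f = aF f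

structure RowSER : Prop extends RowSER1, RowSER2

/-- basic facts on `E` and `Jh` -/
structure RowJH : Prop where
  add : ∀ x y, E (x + y) = E x * E y
  int : ∀ n : ℤ, E n = 1
  ne : ∀ x, E x ≠ 0
  norm : ∀ x : ℂ, ‖E x‖ = Real.exp (-(2 * π * x.im))
  conj : ∀ x : ℂ, (starRingEnd ℂ) (E x) = E (-(starRingEnd ℂ) x)
  quarter : E (1 / 4) = I ∧ E (1 / 2) = -1 ∧ E (1 / 8) = (1 + I) / (√2 : ℝ) ∧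
    E (1 / 3) = (-1 + I * (√3 : ℝ)) / 2
  sq : ∀ τ : ℂ, Jh τ ^ 2 = -I * τ
  jne : ∀ τ : ℂ, 0 < τ.im → Jh τ ≠ 0
  scale : ∀ (t : ℝ) (τ : ℂ), 0 < t → Jh (t * τ) = (√t : ℝ) * Jh τ
  mul : ∀ x y : ℂ, 0 < x.im → 0 < y.im → Jh x * Jh y = (-(x * y)) ^ (1 / 2 : ℂ)
  div : ∀ x y : ℂ, 0 < x.im → 0 < y.im → Jh x / Jh y = (x / y) ^ (1 / 2 : ℂ)
  root : ∀ τ : ℂ, 0 < τ.im → τ ^ (1 / 2 : ℂ) = E (1 / 8) * Jh τ ∧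
    (-τ) ^ (1 / 2 : ℂ) = E (-1 / 8) * Jh τ
  inv : ∀ τ : ℂ, 0 < τ.im → Jh τ * Jh (-1 / τ) = 1
  cj : ∀ τ : ℂ, 0 < τ.im → Jh τ * Jh (-(starRingEnd ℂ) τ) = ‖τ‖

/-! ### The plus space -/

/-- the law under `τ ↦ -1 / (t τ)` in weight `w / 2` -/
def SL (M M' t w : ℕ) (C : ℂ) (c c' : ℕ → ℂ) : Prop :=
  ∀ τ : ℂ, 0 < τ.im → ∀ μ < 2, ser M (par μ c) (-1 / (t * τ)) =
    C * Jh τ ^ w * ((ser M' (par 0 c') τ + (-1) ^ μ * ser M' (par 1 c') τ) / (√2 : ℝ))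

/-- the plus space of weight `k + 1/2` -/
def VL (k : ℕ) (c : ℕ → ℂ) : Prop :=
  Sm c ∧ (∀ n, c n ≠ 0 → n % 4 = 0 ∨ n % 4 = 1 + 2 * (k % 2)) ∧
    SL 4 4 1 (2 * k + 1) (I ^ (k + k % 2)) c c

/-- a form of level `3` with its Fricke transform -/
def V3 (k : ℕ) (c d : ℕ → ℂ) : Prop :=
  Sm c ∧ Sm d ∧ (∀ n, c n ≠ 0 → n % 4 = 0 ∨ n % 4 = 3) ∧ (∀ n, d n ≠ 0 → n % 4 = 0 ∨ n % 4 = 1) ∧
    SL 4 4 3 (2 * k + 1) 1 c d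

/-- forms of weight `j + 9/2` with the multiplier of `η⁸ θ` -/
def WL (j : ℕ) (h : ℕ → ℂ) : Prop :=
  Sm h ∧ (∀ n, h n ≠ 0 → n % 12 = 4 ∨ n % 12 = 7) ∧ SL 12 12 1 (2 * j + 9) (I ^ j) h h

/-- the quadratic character modulo `3` -/
def chi3 (y : ℤ) : ℤ := Int.bmod y 3

/-- `c(n / t)`, zero unless `t ∣ n` -/
def up (t : ℕ) (c : ℕ → ℂ) : ℕ → ℂ := fun n => if t ∣ n then c (n / t) else 0

/-- the form of level `3` attached to a form of the plus space -/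
def toV (k : ℕ) (c : ℕ → ℂ) : ℕ → ℂ := if k % 2 = 0 then fun n => c (3 * n) else c

/-- its Fricke transform -/
def toD (k : ℕ) (c : ℕ → ℂ) : ℕ → ℂ := fun n =>
  if k % 2 = 0 then I ^ k * (3 ^ (2 * k) * up 9 c n + 3 ^ k * chi3 n * c n)
  else I ^ (k + 1) * 3 ^ k * (√3 : ℝ) * up 3 c n

/-- the Fricke transform of the part `1` modulo `3` -/
def flat (k : ℕ) (c d : ℕ → ℂ) : ℕ → ℂ := fun n =>
  3 ^ k / (√3 : ℝ) * (up 3 d n + (E (-(1 + n) / 3) * I ^ k + E ((1 + n) / 3) * (-I) ^ k) * c n)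

def RowV3 : Prop := ∀ (k : ℕ) (c : ℕ → ℂ), VL k c → V3 k (toV k c) (toD k c)

def RowF9 : Prop :=
  ∀ (k : ℕ) (c d : ℕ → ℂ), V3 k c d → SL 12 4 3 (2 * k + 1) 1 (cls1 c) (flat k c d)

/-! ### Theta series with periodic coefficients -/

/-- `∑_{b ≡ μ (2)} X(b) e(b² τ / 4N + b w)` -/
def thX (N : ℕ) (X : ℤ → ℂ) (μ : ℕ) (τ w : ℂ) : ℂ :=
  ∑' b : ℤ, if b % 2 = μ then X b * E (b ^ 2 * τ / (4 * N) + b * w) else 0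

/-- the finite Fourier transform -/
def hat (N : ℕ) (X : ℤ → ℂ) (b' : ℤ) : ℂ :=
  (∑ b ∈ Finset.range N, X b * E (-(b * b' * ((N + 1) / 2 : ℕ)) / N)) / (√N : ℝ)

def RowTH : Prop :=
  ∀ (N : ℕ) (X : ℤ → ℂ), Odd N → (∀ b, X (b + N) = X b) → ∀ τ w : ℂ, 0 < τ.im → ∀ μ < 2,
    (Summable fun b : ℤ => ‖X b * E (b ^ 2 * τ / (4 * N) + b * w)‖) ∧
    thX N X μ (-1 / τ) (w / τ) = E (N * w ^ 2 / τ) * Jh τ *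
      ((thX N (hat N X) 0 τ w + (-1) ^ μ * thX N (hat N X) 1 τ w) / (√2 : ℝ))

/-! ### The basic integral series (variable `e(τ/12)`) -/

/-- `θ_μ` -/
def Tm (μ : ℕ) : ℤ⟦X⟧ := PowerSeries.mk fun n =>
  (((Finset.Icc (-(n : ℤ)) n).filter fun r : ℤ => 3 * r ^ 2 = n ∧ r % 2 = μ).card : ℤ)

/-- pairs `(y, b)` of equal parity with `y² + 3 b² = n` -/
def hex (n : ℕ) : Finset (ℤ × ℤ) :=
  (Finset.Icc (-(n : ℤ)) n ×ˢ Finset.Icc (-(n : ℤ)) n).filter fun v =>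
    v.1 ^ 2 + 3 * v.2 ^ 2 = n ∧ v.1 % 2 = v.2 % 2

/-- the theta series `a(τ)` of the hexagonal lattice -/
def Aa : ℤ⟦X⟧ := PowerSeries.mk fun n => if 3 ∣ n then ((hex (n / 3)).card : ℤ) else 0

/-- `κ(τ) = (a(τ/3) - a(τ)) / 6` -/
def Kk : ℤ⟦X⟧ := PowerSeries.mk fun n => (((hex n).filter fun v => v.1 % 3 = 1 ∧ 3 ∣ v.2).card : ℤ)

/-- the components of the form of weight `5/2` -/
def Hm (μ : ℕ) : ℤ⟦X⟧ := Tm μ * (Tm μ ^ 4 - 5 * Tm (1 - μ) ^ 4)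

/-- the components of `(a² θ - H) / 3` -/
def Pm (μ : ℕ) : ℤ⟦X⟧ := PowerSeries.mk fun n => PowerSeries.coeff n (Aa ^ 2 * Tm μ - Hm μ) / 3

/-- `η⁸` -/
def E8 : ℤ⟦X⟧ := Kk * (Aa ^ 3 - 27 * Kk ^ 3)

/-- `2 η⁶` -/
def D6 : ℤ⟦X⟧ := Tm 0 * Tm 1 * (Tm 0 ^ 4 - Tm 1 ^ 4)

/-- the exponents are `r` modulo `M` and at least `r` -/
def Sup (M r : ℕ) (F : ℤ⟦X⟧) : Prop := ∀ n, PowerSeries.coeff n F ≠ 0 → ∃ t, n = r + M * t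

/-- reduction modulo `3` -/
def red (F : ℤ⟦X⟧) : (ZMod 3)⟦X⟧ := PowerSeries.map (Int.castRingHom (ZMod 3)) F

/-- integral facts -/
structure RowINT : Prop where
  hexK : ∀ n, ((hex n).card : ℤ) = PowerSeries.coeff n (Aa + 6 * Kk)
  three : ∀ μ < 2, 3 * Pm μ = Aa ^ 2 * Tm μ - Hm μ
  redA : red Aa = 1
  supMul : ∀ (M r s : ℕ) (F G : ℤ⟦X⟧), Sup M r F → Sup M s G → Sup M (r + s) (F * G) ∧
    PowerSeries.coeff (r + s) (F * G) = PowerSeries.coeff r F * PowerSeries.coeff s G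
  supT : Sup 12 0 (Tm 0) ∧ Sup 12 3 (Tm 1) ∧ PowerSeries.coeff 0 (Tm 0) = 1 ∧
    PowerSeries.coeff 3 (Tm 1) = 2
  supA : Sup 12 0 Aa ∧ PowerSeries.coeff 0 Aa = 1
  supK : Sup 12 4 Kk ∧ PowerSeries.coeff 4 Kk = 1
  supH : Sup 12 0 (Hm 0) ∧ Sup 12 3 (Hm 1)
  supP : Sup 12 12 (Pm 0) ∧ Sup 12 3 (Pm 1) ∧ PowerSeries.coeff 3 (Pm 1) = 4
  supE : Sup 12 4 E8 ∧ PowerSeries.coeff 4 E8 = 1
  supD : Sup 12 3 D6 ∧ PowerSeries.coeff 3 D6 = 2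

/-- transformation laws of the basic series -/
structure RowBASE : Prop where
  sm : (∀ μ < 2, Sm (cz (Tm μ))) ∧ Sm (cz Aa) ∧ Sm (cz Kk) ∧ ∀ μ < 2, Sm (cz (Pm μ))
  lawT : ∀ τ : ℂ, 0 < τ.im → ∀ μ < 2, sr (Tm μ) (-1 / τ) =
    Jh τ * ((sr (Tm 0) τ + (-1) ^ μ * sr (Tm 1) τ) / (√2 : ℝ))
  lawA : ∀ τ : ℂ, 0 < τ.im → sr Aa (-1 / τ) = -I * τ * (sr Aa τ + 6 * sr Kk τ) / (√3 : ℝ)
  lawK : ∀ τ : ℂ, 0 < τ.im → sr Kk (-1 / τ) = -I * τ * (sr Aa τ - 3 * sr Kk τ) / (3 * (√3 : ℝ))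
  third : ∀ τ : ℂ, 0 < τ.im → sr Aa (3 * τ) + 6 * sr Kk (3 * τ) = sr Aa τ

/-- consequences -/
structure RowNZ : Prop where
  lawH : ∀ τ : ℂ, 0 < τ.im → ∀ μ < 2, sr (Hm μ) (-1 / τ) =
    -Jh τ ^ 5 * ((sr (Hm 0) τ + (-1) ^ μ * sr (Hm 1) τ) / (√2 : ℝ))
  lawE : ∀ τ : ℂ, 0 < τ.im → sr E8 (-1 / τ) = τ ^ 4 * sr E8 τ
  lawD : ∀ τ : ℂ, 0 < τ.im → sr D6 (-1 / τ) = Jh τ ^ 6 * sr D6 τ
  det : ∀ τ : ℂ, 0 < τ.im →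
    sr (Tm 0) τ * sr (Hm 1) τ - sr (Tm 1) τ * sr (Hm 0) τ = -6 * sr D6 τ
  neE : ∀ τ : ℂ, 0 < τ.im → sr E8 τ ≠ 0
  neK : ∀ τ : ℂ, 0 < τ.im → sr Kk τ ≠ 0 ∧ sr Aa τ - 3 * sr Kk τ ≠ 0
  neD : ∀ τ : ℂ, 0 < τ.im → sr D6 τ ≠ 0

def RowNZOf : Prop := RowSER → RowJH → RowINT → RowBASE → RowNZ

/-- modular forms of level `3` -/
def RowMF3 : Prop :=
  ∀ (w : ℤ) (F G : ℂ → ℂ), Hol1 F → Hol1 G →
    (∀ τ : ℂ, 0 < τ.im → F (-1 / (3 * τ)) = τ ^ w * G τ) →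
    ∃ x : ℕ → ℂ, ∀ τ : ℂ, 0 < τ.im → F τ =
      ∑ i ∈ (Finset.range (w.toNat + 1)).filter fun i : ℕ => 3 * (i : ℤ) ≤ w,
        x i * (sr Aa τ ^ (w.toNat - 3 * i) * sr Kk τ ^ (3 * i))

/-- the spanning series -/
def yb (k : ℕ) (p : ℕ × Bool) : ℤ⟦X⟧ :=
  if p.2 then Aa ^ (k - 3 - 3 * p.1) * Kk ^ (3 * p.1 + 1) * (Pm 0 + Pm 1)
  else Aa ^ (k - 1 - 3 * p.1) * Kk ^ (3 * p.1 + 1) * (Tm 0 + Tm 1)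

/-- the part `1` modulo `3` lies in the span -/
def RowCLS : Prop :=
  ∀ (k : ℕ) (c d : ℕ → ℂ), 3 ≤ k → V3 k c d → ∃ x : Fin k × Bool → ℂ,
    cls1 c = ∑ p : Fin k × Bool, x p • cz (yb k (p.1, p.2))

/-- linear algebra -/
structure RowRAT : Prop where
  down : ∀ (ι : Type) [Fintype ι] (b : ι → ℕ → ℤ) (S : Set ℕ) (x : ι → ℂ), x ≠ 0 →
    (∀ n ∈ S, ∑ i, x i * (b i n : ℂ) = 0) →
    ∃ z : ι → ℤ, (∃ i, ¬ 3 ∣ z i) ∧ ∀ n ∈ S, ∑ i, z i * b i n = 0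
  rat : ∀ (ι : Type) [Fintype ι] (b : ι → ℕ → ℤ) (w : ℕ → ℤ) (x : ι → ℂ),
    (∀ n, ∑ i, x i * (b i n : ℂ) = w n) →
    ∃ (M : ℤ) (z : ι → ℤ), M ≠ 0 ∧ ∀ n, ∑ i, z i * b i n = M * w n
  ind : ∀ (k r : ℕ) (z : Fin r × Bool → ZMod 3),
    (∀ n, ∑ p : Fin r × Bool, z p * PowerSeries.coeff n (red (yb k (p.1, p.2))) = 0) → z = 0

/-! ### Ternary theta series -/

abbrev V := ℤ × ℤ × ℤ

/-- vectors `(a, y, b)` with `y² + 3 a² + 3 b² = n`, `y ≡ b (2)` -/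
def Rp (n : ℕ) : Finset V :=
  (Finset.Icc (-(n : ℤ)) n ×ˢ Finset.Icc (-(n : ℤ)) n ×ˢ Finset.Icc (-(n : ℤ)) n).filter fun v =>
    v.2.1 ^ 2 + 3 * v.1 ^ 2 + 3 * v.2.2 ^ 2 = n ∧ v.2.1 % 2 = v.2.2 % 2

/-- one third of them -/
def Rp0 (n : ℕ) : Finset V := (Rp n).filter fun v => 3 ∣ v.2.2

/-- the theta series of a coefficient function -/
def TH0 {R : Type} [AddCommMonoid R] (φ : V → R) (n : ℕ) : R := ∑ v ∈ Rp0 n, φ v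

/-- `-2` times the rotation of order three -/
def sg (v : V) : V := (-2 * v.1, v.2.1 + 3 * v.2.2, v.2.2 - v.2.1)

/-- `-2` times its inverse -/
def sg' (v : V) : V := (-2 * v.1, v.2.1 - 3 * v.2.2, v.2.2 + v.2.1)

/-- the rotation of order four -/
def rt (v : V) : V := (v.2.2, v.2.1, -v.1)

/-- rotations of norm `49` -/
def p7 (s : ℤ) (v : V) : V := (7 * v.1, v.2.1 + 12 * s * v.2.2, v.2.2 - 4 * s * v.2.1)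

def q7 (s : ℤ) (v : V) : V := (v.1 - 4 * s * v.2.1, v.2.1 + 12 * s * v.1, 7 * v.2.2)

/-- admissible coefficient functions -/
structure InC (φ : V → ZMod 3) : Prop where
  zero : ∀ v : V, 3 ∣ v.2.1 → φ v = 0
  per : ∃ N : ℕ, ∀ v w : V, φ (v + (3 ^ N : ℤ) • w) = φ v
  hom : ∀ (l : ℤ) (v : V), ¬ 3 ∣ l → φ (l • v) = φ v
  sgnA : ∀ a y b : ℤ, φ (-a, y, b) = φ (a, y, b)
  sgnB : ∀ a y b : ℤ, φ (a, y, -b) = φ (a, y, b)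
  rot : ∀ v : V, φ (sg v) = φ v

def one3 : V → ZMod 3 := fun v => if 3 ∣ v.2.1 then 0 else 1

def T2 {R : Type} [AddCommMonoid R] (φ : V → R) : V → R := fun v =>
  φ (rt v) + φ (rt (sg v)) + φ (rt (sg' v))

def T7 {R : Type} [AddCommMonoid R] (φ : V → R) : V → R := fun v =>
  φ (p7 1 v) + φ (p7 (-1) v) + (φ (q7 1 v) + φ (q7 1 (sg v)) + φ (q7 1 (sg' v))) +
    (φ (q7 (-1) v) + φ (q7 (-1) (sg v)) + φ (q7 (-1) (sg' v)))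

def RowSTAB : Prop := ∀ φ, InC φ → InC (T2 φ) ∧ InC (T7 φ)

/-- the commutation relation -/
def RowEI2 : Prop :=
  ∀ (φ : V → ZMod 3) (n : ℕ), InC φ → Squarefree n → n % 4 = 3 →
    (∀ m : ℕ, 1 ≤ m → TH0 φ (n * m ^ 2) = 0) → ∀ m : ℕ, 1 ≤ m → TH0 (T2 φ) (n * m ^ 2) = 0

def RowEI7 : Prop :=
  ∀ (φ : V → ZMod 3) (n : ℕ), InC φ → Squarefree n → n % 4 = 3 →
    (∀ m : ℕ, 1 ≤ m → TH0 φ (n * m ^ 2) = 0) → ∀ m : ℕ, 1 ≤ m → TH0 (T7 φ) (n * m ^ 2) = 0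

/-- forward differences -/
def df1 {R : Type} [AddCommGroup R] (ψ : ℤ × ℤ → R) : ℤ × ℤ → R := fun w => ψ (w.1 + 1, w.2) - ψ w

def df2 {R : Type} [AddCommGroup R] (ψ : ℤ × ℤ → R) : ℤ × ℤ → R := fun w => ψ (w.1, w.2 + 1) - ψ w

/-- central differences -/
def dc1 {R : Type} [AddCommGroup R] (ψ : ℤ × ℤ → R) : ℤ × ℤ → R :=
  fun w => ψ (w.1 + 1, w.2) - ψ (w.1 - 1, w.2)

def dc2 {R : Type} [AddCommGroup R] (ψ : ℤ × ℤ → R) : ℤ × ℤ → R :=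
  fun w => ψ (w.1, w.2 + 1) - ψ (w.1, w.2 - 1)

/-- degree less than `m` -/
def Dlt {R : Type} [AddCommGroup R] (m : ℕ) (ψ : ℤ × ℤ → R) : Prop :=
  ∀ i j : ℕ, m ≤ i + j → df1^[i] (df2^[j] ψ) = 0

/-- coefficients -/
def cof (i j : ℕ) (ψ : ℤ × ℤ → ZMod 3) : ZMod 3 := dc1^[i] (dc2^[j] ψ) (0, 0)

/-- degrees of periodic functions -/
structure RowDEG : Prop where
  per : ∀ (N : ℕ) (ψ : ℤ × ℤ → ZMod 3), (∀ v w, ψ (v + (3 ^ N : ℤ) • w) = ψ v) → ∃ m, Dlt m ψ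
  per' : ∀ (N m : ℕ) (ψ : ℤ × ℤ → ZMod 3), Dlt m ψ → m ≤ 3 ^ N → ∀ v w, ψ (v + (3 ^ N : ℤ) • w) = ψ v
  zero : ∀ (m i j : ℕ) (ψ : ℤ × ℤ → ZMod 3), Dlt m ψ → m ≤ i + j → cof i j ψ = 0
  down : ∀ (m : ℕ) (ψ : ℤ × ℤ → ZMod 3), Dlt (m + 1) ψ → (∀ i j, i + j = m → cof i j ψ = 0) →
    Dlt m ψ
  neg1 : ∀ (i j : ℕ) (ψ : ℤ × ℤ → ZMod 3), cof i j (fun w => ψ (-w.1, w.2)) = (-1) ^ i * cof i j ψ
  neg2 : ∀ (i j : ℕ) (ψ : ℤ × ℤ → ZMod 3), cof i j (fun w => ψ (w.1, -w.2)) = (-1) ^ j * cof i j ψ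
  swap : ∀ (i j : ℕ) (ψ : ℤ × ℤ → ZMod 3), cof i j (fun w => ψ (w.2, w.1)) = cof j i ψ
  dneg : ∀ (m : ℕ) (ψ : ℤ × ℤ → ZMod 3), Dlt m ψ → Dlt m (fun w => ψ (-w.1, w.2)) ∧
    Dlt m (fun w => ψ (w.1, -w.2)) ∧ Dlt m fun w => ψ (w.2, w.1)

/-- Taylor expansion along a projective map close to the identity -/
def RowTAY : Prop :=
  ∀ (m N : ℕ) (ψ : ℤ × ℤ → ZMod 3) (g : ℤ × ℤ → ℤ × ℤ)
    (u l₁ l₂ n₁ n₂ n₁₁ n₁₂ n₂₁ n₂₂ t₁ t₂ L₁₁ L₁₂ L₂₁ L₂₂ : ℤ), Dlt (m + 1) ψ → m < 3 ^ N →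
    ¬ 3 ∣ u → 3 ∣ n₁ - u * t₁ → 3 ∣ n₂ - u * t₂ → 9 ∣ n₁₁ - u * (1 + 3 * L₁₁) →
    9 ∣ n₁₂ - u * (3 * L₁₂) → 9 ∣ n₂₁ - u * (3 * L₂₁) → 9 ∣ n₂₂ - u * (1 + 3 * L₂₂) →
    (∀ w : ℤ × ℤ, (3 : ℤ) ^ N ∣
      (u + 9 * (l₁ * w.1 + l₂ * w.2)) * (g w).1 - (n₁ + n₁₁ * w.1 + n₁₂ * w.2)) →
    (∀ w : ℤ × ℤ, (3 : ℤ) ^ N ∣
      (u + 9 * (l₁ * w.1 + l₂ * w.2)) * (g w).2 - (n₂ + n₂₁ * w.1 + n₂₂ * w.2)) →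
    Dlt (m + 1) (ψ ∘ g) ∧ ∀ i j : ℕ, m ≤ i + j + 2 → cof i j (ψ ∘ g) =
      cof i j ψ - t₁ * cof (i + 1) j ψ - t₂ * cof i (j + 1) ψ - t₁ ^ 2 * cof (i + 2) j ψ +
        t₁ * t₂ * cof (i + 1) (j + 1) ψ - t₂ ^ 2 * cof i (j + 2) ψ +
        i * L₁₁ * cof (i + 2) j ψ + j * L₁₂ * cof (i + 3) (j - 1) ψ +
        i * L₂₁ * cof (i - 1) (j + 3) ψ + j * L₂₂ * cof i (j + 2) ψ

/-- the socle theorem -/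
def RowSOC : Prop :=
  ∀ W : Submodule (ZMod 3) (V → ZMod 3), (∀ φ ∈ W, InC φ) → (∀ φ ∈ W, T2 φ ∈ W ∧ T7 φ ∈ W) →
    W ≠ ⊥ → one3 ∈ W

/-- a harmonic polynomial of degree `d` times the character -/
def Pd (d m : ℕ) (v : V) : ℤ :=
  chi3 v.2.1 * ((⟨v.2.1, v.2.2⟩ : ℤ√(-3)) ^ m).re *
    ∑ i ∈ (Finset.range (d + 1)).filter fun i => m + 2 * i ≤ d,
      (d.choose i * (d - i).choose (m + i) : ℕ) * (-3 * (v.2.1 ^ 2 + 3 * v.2.2 ^ 2)) ^ i *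
        (6 * v.1) ^ (d - m - 2 * i)

/-- symmetries and independence -/
structure RowPOL : Prop where
  zero : ∀ (d m : ℕ) (v : V), 3 ∣ v.2.1 → Pd d m v = 0
  per : ∀ (d m e : ℕ) (v w : V), (3 : ℤ) ^ (e + 1) ∣ Pd d m (v + (3 ^ (e + 1) : ℤ) • w) - Pd d m v
  hom : ∀ (d m : ℕ) (l : ℤ) (v : V), Pd d m (l • v) = chi3 l * l ^ d * Pd d m v
  sgnA : ∀ (d m : ℕ) (a y b : ℤ), d % 2 = m % 2 → Pd d m (-a, y, b) = Pd d m (a, y, b)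
  sgnB : ∀ (d m : ℕ) (a y b : ℤ), Pd d m (a, y, -b) = Pd d m (a, y, b)
  rot : ∀ (d m : ℕ) (v : V), 3 ∣ m → Pd d m (sg v) = (-2) ^ d * Pd d m v
  ind : ∀ (j : ℕ) (z : Fin (j / 6 + 1) → ℤ), Even j →
    (∀ v : V, ∑ l, z l * Pd (j + 3) (6 * l + 3) v = 0) → z = 0

/-- powers of isotropic linear forms -/
def RowTER1 : Prop :=
  ∀ (j : ℕ) (s w₁ w₂ : ℂ), Even j → s ^ 2 + 3 * w₁ ^ 2 + w₂ ^ 2 = 0 →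
    WL j fun n => ∑ v ∈ Rp n, (chi3 v.2.1 : ℂ) * (s * v.1 + w₁ * v.2.1 + w₂ * v.2.2) ^ (j + 3)

def RowTER : Prop :=
  ∀ j l : ℕ, Even j → WL j fun n => ((TH0 (Pd (j + 3) (6 * l + 3)) n : ℤ) : ℂ)

def RowWDIM : Prop :=
  ∀ (j : ℕ) (ι : Type) [Fintype ι] (h : ι → ℕ → ℂ), Even j → (∀ i, WL j (h i)) →
    LinearIndependent ℂ h → Fintype.card ι ≤ j / 6 + 1

def RowWGEN : Prop :=
  ∀ (k : ℕ) (p : ℕ × Bool), ∃ (j : ℕ) (w : ℤ⟦X⟧), Even j ∧ WL j (cz w) ∧ red w = red (yb k p)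

/-- surjectivity -/
def RowSUR : Prop :=
  ∀ (j : ℕ) (w : ℤ⟦X⟧), Even j → WL j (cz w) →
    ∃ φ, InC φ ∧ ∀ n, TH0 φ n = PowerSeries.coeff n (red w)

/-- the part `1` modulo `3` of a cusp form is not zero -/
def RowKB : Prop :=
  ∀ (k : ℕ) (c : ℕ → ℂ), 6 ≤ k → VL k c → c 0 = 0 → cls1 (toV k c) = 0 → c = 0

/-- the absolute value of the discriminant -/
def NN (k n : ℕ) : ℕ := if k % 2 = 0 then 3 * n else n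

/-- injectivity of the Shimura lift -/
def RowKER : Prop :=
  ∀ (k n : ℕ) (c : ℕ → ℂ), 6 ≤ k → n % 12 = 7 → Squarefree n → ¬ 3 ∣ (Rp0 n).card → VL k c →
    c 0 = 0 → (∀ m : ℕ, 1 ≤ m → c (NN k n * m ^ 2) = 0) → c = 0

/-- enough cusp forms -/
def RowVDIM : Prop :=
  ∀ k : ℕ, 6 ≤ k → ∃ (r : ℕ) (h : Fin r → ℕ → ℂ), (∀ i, VL k (h i) ∧ h i 0 = 0) ∧
    LinearIndependent ℂ h ∧ Module.finrank ℂ (CuspForm 𝒮ℒ (2 * k : ℕ)) ≤ r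

/-- the extreme eigenvalue does not occur -/
def RowT3 : Prop :=
  ∀ (k : ℕ) (f : CuspForm 𝒮ℒ (2 * k : ℕ)) (t : ℂ), 1 ≤ k → ‖t‖ = 1 →
    (∀ m : ℕ, 1 ≤ m → aF f (3 * m) + 3 ^ (2 * k - 1) * up 3 (aF f) m =
      t * (3 ^ k + 3 ^ (k - 1)) * aF f m) → f = 0

end

end Pool.Agent.MP_5f72fe_nt.H3
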